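import Pool.Agent.Helper86.TC8B.BData

/-!
BASE: the checks, part 1.
-/

set_option autoImplicit false

namespace Pool.Agent.Helper86.TC8


theorem c_5_0 : chk .n false l_4_2 l_4_3 l_4_4 l_4_5 l_5_0 = true := by
  decide +kernel

theorem c_5_1 : chk .n true l_4_2 l_4_3 l_4_4 l_4_5 l_5_1 = true := by
  decide +kernel

theorem c_5_2 : chk .b false l_4_2 l_4_3 l_4_0 l_4_1 l_5_2 = true := by
  decide +kernel

theorem c_5_3 : chk .b true l_4_2 l_4_3 l_4_0 l_4_1 l_5_3 = true := by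
  decide +kernel

theorem c_5_4 : chk .f false l_4_4 l_4_5 l_4_0 l_4_1 l_5_4 = true := by
  decide +kernel

theorem c_5_5 : chk .f true l_4_4 l_4_5 l_4_0 l_4_1 l_5_5 = true := by
  decide +kernel

theorem c_6_0 : chk .n false l_5_2 l_5_3 l_5_4 l_5_5 l_6_0 = true := by
  decide +kernel

theorem c_6_1 : chk .n true l_5_2 l_5_3 l_5_4 l_5_5 l_6_1 = true := by
  decide +kernel

theorem c_6_2 : chk .b false l_5_2 l_5_3 l_5_0 l_5_1 l_6_2 = true := by
  decide +kernel

theorem c_6_3 : chk .b true l_5_2 l_5_3 l_5_0 l_5_1 l_6_3 = true := by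
  decide +kernel

theorem c_6_4 : chk .f false l_5_4 l_5_5 l_5_0 l_5_1 l_6_4 = true := by
  decide +kernel

theorem c_6_5 : chk .f true l_5_4 l_5_5 l_5_0 l_5_1 l_6_5 = true := by
  decide +kernel

theorem c_7_0 : chk .n false l_6_2 l_6_3 l_6_4 l_6_5 l_7_0 = true := by
  decide +kernel

theorem c_7_1 : chk .n true l_6_2 l_6_3 l_6_4 l_6_5 l_7_1 = true := by
  decide +kernel

theorem c_7_2 : chk .b false l_6_2 l_6_3 l_6_0 l_6_1 l_7_2 = true := by
  decide +kernel

theorem c_7_3 : chk .b true l_6_2 l_6_3 l_6_0 l_6_1 l_7_3 = true := by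
  decide +kernel

theorem c_7_4 : chk .f false l_6_4 l_6_5 l_6_0 l_6_1 l_7_4 = true := by
  decide +kernel

theorem c_7_5 : chk .f true l_6_4 l_6_5 l_6_0 l_6_1 l_7_5 = true := by
  decide +kernel

theorem c_8_0 : chk .n false l_7_2 l_7_3 l_7_4 l_7_5 l_8_0 = true := by
  decide +kernel

theorem c_8_1 : chk .n true l_7_2 l_7_3 l_7_4 l_7_5 l_8_1 = true := by
  decide +kernel

theorem c_8_2 : chk .b false l_7_2 l_7_3 l_7_0 l_7_1 l_8_2 = true := by
  decide +kernel

theorem c_8_3 : chk .b true l_7_2 l_7_3 l_7_0 l_7_1 l_8_3 = true := by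
  decide +kernel

theorem c_8_4 : chk .f false l_7_4 l_7_5 l_7_0 l_7_1 l_8_4 = true := by
  decide +kernel

theorem c_8_5 : chk .f true l_7_4 l_7_5 l_7_0 l_7_1 l_8_5 = true := by
  decide +kernel

end Pool.Agent.Helper86.TC8
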