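import Pool.Agent.Helper86.TC8B.BData

/-!
BASE: the checks, part 2.
-/

set_option autoImplicit false

namespace Pool.Agent.Helper86.TC8


theorem c_9_0 : chk .n false l_8_2 l_8_3 l_8_4 l_8_5 l_9_0 = true := by
  decide +kernel

theorem c_9_1 : chk .n true l_8_2 l_8_3 l_8_4 l_8_5 l_9_1 = true := by
  decide +kernel

theorem c_9_2 : chk .b false l_8_2 l_8_3 l_8_0 l_8_1 l_9_2 = true := by
  decide +kernel

theorem c_9_3 : chk .b true l_8_2 l_8_3 l_8_0 l_8_1 l_9_3 = true := by
  decide +kernel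

theorem c_9_4 : chk .f false l_8_4 l_8_5 l_8_0 l_8_1 l_9_4 = true := by
  decide +kernel

theorem c_9_5 : chk .f true l_8_4 l_8_5 l_8_0 l_8_1 l_9_5 = true := by
  decide +kernel

theorem c_10_0 : chk .n false l_9_2 l_9_3 l_9_4 l_9_5 l_10_0 = true := by
  decide +kernel

theorem c_10_1 : chk .n true l_9_2 l_9_3 l_9_4 l_9_5 l_10_1 = true := by
  decide +kernel

theorem c_10_2 : chk .b false l_9_2 l_9_3 l_9_0 l_9_1 l_10_2 = true := by
  decide +kernel

theorem c_10_3 : chk .b true l_9_2 l_9_3 l_9_0 l_9_1 l_10_3 = true := by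
  decide +kernel

theorem c_10_4 : chk .f false l_9_4 l_9_5 l_9_0 l_9_1 l_10_4 = true := by
  decide +kernel

theorem c_10_5 : chk .f true l_9_4 l_9_5 l_9_0 l_9_1 l_10_5 = true := by
  decide +kernel

theorem c_11_0 : chk .n false l_10_2 l_10_3 l_10_4 l_10_5 l_11_0 = true := by
  decide +kernel

theorem c_11_1 : chk .n true l_10_2 l_10_3 l_10_4 l_10_5 l_11_1 = true := by
  decide +kernel

theorem c_11_2 : chk .b false l_10_2 l_10_3 l_10_0 l_10_1 l_11_2 = true := by
  decide +kernel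

theorem c_11_3 : chk .b true l_10_2 l_10_3 l_10_0 l_10_1 l_11_3 = true := by
  decide +kernel

theorem c_11_4 : chk .f false l_10_4 l_10_5 l_10_0 l_10_1 l_11_4 = true := by
  decide +kernel

theorem c_11_5 : chk .f true l_10_4 l_10_5 l_10_0 l_10_1 l_11_5 = true := by
  decide +kernel

theorem c_12_0 : chk .n false l_11_2 l_11_3 l_11_4 l_11_5 l_12_0 = true := by
  decide +kernel

theorem c_12_1 : chk .n true l_11_2 l_11_3 l_11_4 l_11_5 l_12_1 = true := by
  decide +kernel

theorem c_12_2 : chk .b false l_11_2 l_11_3 l_11_0 l_11_1 l_12_2 = true := by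
  decide +kernel

theorem c_12_3 : chk .b true l_11_2 l_11_3 l_11_0 l_11_1 l_12_3 = true := by
  decide +kernel

theorem c_12_4 : chk .f false l_11_4 l_11_5 l_11_0 l_11_1 l_12_4 = true := by
  decide +kernel

theorem c_12_5 : chk .f true l_11_4 l_11_5 l_11_0 l_11_1 l_12_5 = true := by
  decide +kernel

end Pool.Agent.Helper86.TC8
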