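import Pool.Agent.Helper86.TC8B.BData

/-!
BASE: the checks, part 3.
-/

set_option autoImplicit false

namespace Pool.Agent.Helper86.TC8


theorem c_13_0 : chk .n false l_12_2 l_12_3 l_12_4 l_12_5 l_13_0 = true := by
  decide +kernel

theorem c_13_1 : chk .n true l_12_2 l_12_3 l_12_4 l_12_5 l_13_1 = true := by
  decide +kernel

theorem c_13_2 : chk .b false l_12_2 l_12_3 l_12_0 l_12_1 l_13_2 = true := by
  decide +kernel

theorem c_13_3 : chk .b true l_12_2 l_12_3 l_12_0 l_12_1 l_13_3 = true := by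
  decide +kernel

theorem c_13_4 : chk .f false l_12_4 l_12_5 l_12_0 l_12_1 l_13_4 = true := by
  decide +kernel

theorem c_13_5 : chk .f true l_12_4 l_12_5 l_12_0 l_12_1 l_13_5 = true := by
  decide +kernel

theorem c_14_0 : chk .n false l_13_2 l_13_3 l_13_4 l_13_5 l_14_0 = true := by
  decide +kernel

theorem c_14_1 : chk .n true l_13_2 l_13_3 l_13_4 l_13_5 l_14_1 = true := by
  decide +kernel

theorem c_14_2 : chk .b false l_13_2 l_13_3 l_13_0 l_13_1 l_14_2 = true := by
  decide +kernel

theorem c_14_3 : chk .b true l_13_2 l_13_3 l_13_0 l_13_1 l_14_3 = true := by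
  decide +kernel

theorem c_14_4 : chk .f false l_13_4 l_13_5 l_13_0 l_13_1 l_14_4 = true := by
  decide +kernel

theorem c_14_5 : chk .f true l_13_4 l_13_5 l_13_0 l_13_1 l_14_5 = true := by
  decide +kernel

theorem c_15_0 : chk .n false l_14_2 l_14_3 l_14_4 l_14_5 l_15_0 = true := by
  decide +kernel

theorem c_15_1 : chk .n true l_14_2 l_14_3 l_14_4 l_14_5 l_15_1 = true := by
  decide +kernel

theorem c_15_2 : chk .b false l_14_2 l_14_3 l_14_0 l_14_1 l_15_2 = true := by
  decide +kernel

theorem c_15_3 : chk .b true l_14_2 l_14_3 l_14_0 l_14_1 l_15_3 = true := by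
  decide +kernel

theorem c_15_4 : chk .f false l_14_4 l_14_5 l_14_0 l_14_1 l_15_4 = true := by
  decide +kernel

theorem c_15_5 : chk .f true l_14_4 l_14_5 l_14_0 l_14_1 l_15_5 = true := by
  decide +kernel

theorem c_16_0 : chk .n false l_15_2 l_15_3 l_15_4 l_15_5 l_16_0 = true := by
  decide +kernel

theorem c_16_1 : chk .n true l_15_2 l_15_3 l_15_4 l_15_5 l_16_1 = true := by
  decide +kernel

theorem c_16_2 : chk .b false l_15_2 l_15_3 l_15_0 l_15_1 l_16_2 = true := by
  decide +kernel

theorem c_16_3 : chk .b true l_15_2 l_15_3 l_15_0 l_15_1 l_16_3 = true := by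
  decide +kernel

theorem c_16_4 : chk .f false l_15_4 l_15_5 l_15_0 l_15_1 l_16_4 = true := by
  decide +kernel

theorem c_16_5 : chk .f true l_15_4 l_15_5 l_15_0 l_15_1 l_16_5 = true := by
  decide +kernel

end Pool.Agent.Helper86.TC8
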