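import Pool.Agent.Helper86.TC8B.BChk0
import Pool.Agent.Helper86.TC8B.BChk1
import Pool.Agent.Helper86.TC8B.BChk2
import Pool.Agent.Helper86.TC8B.BChk3

/-!
BASE: assembly.
-/

set_option autoImplicit false

namespace Pool.Agent.Helper86.TC8

open Finset
open scoped Classical

variable (hB1 : ST_B1)

include hB1

omit hB1 in
theorem D_0_0 : Dom 0 .n (cst false) l_0_0 :=
  Dom0 _ _ _ (by decide +kernel)

omit hB1 in
theorem D_0_1 : Dom 0 .n (cst true) l_0_1 :=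
  Dom0 _ _ _ (by decide +kernel)

omit hB1 in
theorem D_0_2 : Dom 0 .b (cst false) l_0_2 :=
  Dom0 _ _ _ (by decide +kernel)

omit hB1 in
theorem D_0_3 : Dom 0 .b (cst true) l_0_3 :=
  Dom0 _ _ _ (by decide +kernel)

omit hB1 in
theorem D_0_4 : Dom 0 .f (cst false) l_0_4 :=
  Dom0 _ _ _ (by decide +kernel)

omit hB1 in
theorem D_0_5 : Dom 0 .f (cst true) l_0_5 :=
  Dom0 _ _ _ (by decide +kernel)

theorem D_1_0 : Dom 1 .n (cst false) l_1_0 :=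
  step hB1 0 .n false _ _ _ _ _ D_0_2 D_0_3 D_0_4 D_0_5 c_1_0

theorem D_1_1 : Dom 1 .n (cst true) l_1_1 :=
  step hB1 0 .n true _ _ _ _ _ D_0_2 D_0_3 D_0_4 D_0_5 c_1_1

theorem D_1_2 : Dom 1 .b (cst false) l_1_2 :=
  step hB1 0 .b false _ _ _ _ _ D_0_2 D_0_3 D_0_0 D_0_1 c_1_2

theorem D_1_3 : Dom 1 .b (cst true) l_1_3 :=
  step hB1 0 .b true _ _ _ _ _ D_0_2 D_0_3 D_0_0 D_0_1 c_1_3

theorem D_1_4 : Dom 1 .f (cst false) l_1_4 :=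
  step hB1 0 .f false _ _ _ _ _ D_0_4 D_0_5 D_0_0 D_0_1 c_1_4

theorem D_1_5 : Dom 1 .f (cst true) l_1_5 :=
  step hB1 0 .f true _ _ _ _ _ D_0_4 D_0_5 D_0_0 D_0_1 c_1_5

theorem D_2_0 : Dom 2 .n (cst false) l_2_0 :=
  step hB1 1 .n false _ _ _ _ _ (D_1_2 hB1) (D_1_3 hB1) (D_1_4 hB1) (D_1_5 hB1) c_2_0

theorem D_2_1 : Dom 2 .n (cst true) l_2_1 :=
  step hB1 1 .n true _ _ _ _ _ (D_1_2 hB1) (D_1_3 hB1) (D_1_4 hB1) (D_1_5 hB1) c_2_1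

theorem D_2_2 : Dom 2 .b (cst false) l_2_2 :=
  step hB1 1 .b false _ _ _ _ _ (D_1_2 hB1) (D_1_3 hB1) (D_1_0 hB1) (D_1_1 hB1) c_2_2

theorem D_2_3 : Dom 2 .b (cst true) l_2_3 :=
  step hB1 1 .b true _ _ _ _ _ (D_1_2 hB1) (D_1_3 hB1) (D_1_0 hB1) (D_1_1 hB1) c_2_3

theorem D_2_4 : Dom 2 .f (cst false) l_2_4 :=
  step hB1 1 .f false _ _ _ _ _ (D_1_4 hB1) (D_1_5 hB1) (D_1_0 hB1) (D_1_1 hB1) c_2_4

theorem D_2_5 : Dom 2 .f (cst true) l_2_5 :=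
  step hB1 1 .f true _ _ _ _ _ (D_1_4 hB1) (D_1_5 hB1) (D_1_0 hB1) (D_1_1 hB1) c_2_5

theorem D_3_0 : Dom 3 .n (cst false) l_3_0 :=
  step hB1 2 .n false _ _ _ _ _ (D_2_2 hB1) (D_2_3 hB1) (D_2_4 hB1) (D_2_5 hB1) c_3_0

theorem D_3_1 : Dom 3 .n (cst true) l_3_1 :=
  step hB1 2 .n true _ _ _ _ _ (D_2_2 hB1) (D_2_3 hB1) (D_2_4 hB1) (D_2_5 hB1) c_3_1

theorem D_3_2 : Dom 3 .b (cst false) l_3_2 :=
  step hB1 2 .b false _ _ _ _ _ (D_2_2 hB1) (D_2_3 hB1) (D_2_0 hB1) (D_2_1 hB1) c_3_2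

theorem D_3_3 : Dom 3 .b (cst true) l_3_3 :=
  step hB1 2 .b true _ _ _ _ _ (D_2_2 hB1) (D_2_3 hB1) (D_2_0 hB1) (D_2_1 hB1) c_3_3

theorem D_3_4 : Dom 3 .f (cst false) l_3_4 :=
  step hB1 2 .f false _ _ _ _ _ (D_2_4 hB1) (D_2_5 hB1) (D_2_0 hB1) (D_2_1 hB1) c_3_4

theorem D_3_5 : Dom 3 .f (cst true) l_3_5 :=
  step hB1 2 .f true _ _ _ _ _ (D_2_4 hB1) (D_2_5 hB1) (D_2_0 hB1) (D_2_1 hB1) c_3_5

theorem D_4_0 : Dom 4 .n (cst false) l_4_0 :=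
  step hB1 3 .n false _ _ _ _ _ (D_3_2 hB1) (D_3_3 hB1) (D_3_4 hB1) (D_3_5 hB1) c_4_0

theorem D_4_1 : Dom 4 .n (cst true) l_4_1 :=
  step hB1 3 .n true _ _ _ _ _ (D_3_2 hB1) (D_3_3 hB1) (D_3_4 hB1) (D_3_5 hB1) c_4_1

theorem D_4_2 : Dom 4 .b (cst false) l_4_2 :=
  step hB1 3 .b false _ _ _ _ _ (D_3_2 hB1) (D_3_3 hB1) (D_3_0 hB1) (D_3_1 hB1) c_4_2

theorem D_4_3 : Dom 4 .b (cst true) l_4_3 :=
  step hB1 3 .b true _ _ _ _ _ (D_3_2 hB1) (D_3_3 hB1) (D_3_0 hB1) (D_3_1 hB1) c_4_3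

theorem D_4_4 : Dom 4 .f (cst false) l_4_4 :=
  step hB1 3 .f false _ _ _ _ _ (D_3_4 hB1) (D_3_5 hB1) (D_3_0 hB1) (D_3_1 hB1) c_4_4

theorem D_4_5 : Dom 4 .f (cst true) l_4_5 :=
  step hB1 3 .f true _ _ _ _ _ (D_3_4 hB1) (D_3_5 hB1) (D_3_0 hB1) (D_3_1 hB1) c_4_5

theorem D_5_0 : Dom 5 .n (cst false) l_5_0 :=
  step hB1 4 .n false _ _ _ _ _ (D_4_2 hB1) (D_4_3 hB1) (D_4_4 hB1) (D_4_5 hB1) c_5_0

theorem D_5_1 : Dom 5 .n (cst true) l_5_1 :=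
  step hB1 4 .n true _ _ _ _ _ (D_4_2 hB1) (D_4_3 hB1) (D_4_4 hB1) (D_4_5 hB1) c_5_1

theorem D_5_2 : Dom 5 .b (cst false) l_5_2 :=
  step hB1 4 .b false _ _ _ _ _ (D_4_2 hB1) (D_4_3 hB1) (D_4_0 hB1) (D_4_1 hB1) c_5_2

theorem D_5_3 : Dom 5 .b (cst true) l_5_3 :=
  step hB1 4 .b true _ _ _ _ _ (D_4_2 hB1) (D_4_3 hB1) (D_4_0 hB1) (D_4_1 hB1) c_5_3

theorem D_5_4 : Dom 5 .f (cst false) l_5_4 :=
  step hB1 4 .f false _ _ _ _ _ (D_4_4 hB1) (D_4_5 hB1) (D_4_0 hB1) (D_4_1 hB1) c_5_4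

theorem D_5_5 : Dom 5 .f (cst true) l_5_5 :=
  step hB1 4 .f true _ _ _ _ _ (D_4_4 hB1) (D_4_5 hB1) (D_4_0 hB1) (D_4_1 hB1) c_5_5

theorem D_6_0 : Dom 6 .n (cst false) l_6_0 :=
  step hB1 5 .n false _ _ _ _ _ (D_5_2 hB1) (D_5_3 hB1) (D_5_4 hB1) (D_5_5 hB1) c_6_0

theorem D_6_1 : Dom 6 .n (cst true) l_6_1 :=
  step hB1 5 .n true _ _ _ _ _ (D_5_2 hB1) (D_5_3 hB1) (D_5_4 hB1) (D_5_5 hB1) c_6_1

theorem D_6_2 : Dom 6 .b (cst false) l_6_2 :=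
  step hB1 5 .b false _ _ _ _ _ (D_5_2 hB1) (D_5_3 hB1) (D_5_0 hB1) (D_5_1 hB1) c_6_2

theorem D_6_3 : Dom 6 .b (cst true) l_6_3 :=
  step hB1 5 .b true _ _ _ _ _ (D_5_2 hB1) (D_5_3 hB1) (D_5_0 hB1) (D_5_1 hB1) c_6_3

theorem D_6_4 : Dom 6 .f (cst false) l_6_4 :=
  step hB1 5 .f false _ _ _ _ _ (D_5_4 hB1) (D_5_5 hB1) (D_5_0 hB1) (D_5_1 hB1) c_6_4

theorem D_6_5 : Dom 6 .f (cst true) l_6_5 :=
  step hB1 5 .f true _ _ _ _ _ (D_5_4 hB1) (D_5_5 hB1) (D_5_0 hB1) (D_5_1 hB1) c_6_5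

theorem D_7_0 : Dom 7 .n (cst false) l_7_0 :=
  step hB1 6 .n false _ _ _ _ _ (D_6_2 hB1) (D_6_3 hB1) (D_6_4 hB1) (D_6_5 hB1) c_7_0

theorem D_7_1 : Dom 7 .n (cst true) l_7_1 :=
  step hB1 6 .n true _ _ _ _ _ (D_6_2 hB1) (D_6_3 hB1) (D_6_4 hB1) (D_6_5 hB1) c_7_1

theorem D_7_2 : Dom 7 .b (cst false) l_7_2 :=
  step hB1 6 .b false _ _ _ _ _ (D_6_2 hB1) (D_6_3 hB1) (D_6_0 hB1) (D_6_1 hB1) c_7_2

theorem D_7_3 : Dom 7 .b (cst true) l_7_3 :=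
  step hB1 6 .b true _ _ _ _ _ (D_6_2 hB1) (D_6_3 hB1) (D_6_0 hB1) (D_6_1 hB1) c_7_3

theorem D_7_4 : Dom 7 .f (cst false) l_7_4 :=
  step hB1 6 .f false _ _ _ _ _ (D_6_4 hB1) (D_6_5 hB1) (D_6_0 hB1) (D_6_1 hB1) c_7_4

theorem D_7_5 : Dom 7 .f (cst true) l_7_5 :=
  step hB1 6 .f true _ _ _ _ _ (D_6_4 hB1) (D_6_5 hB1) (D_6_0 hB1) (D_6_1 hB1) c_7_5

theorem D_8_0 : Dom 8 .n (cst false) l_8_0 :=
  step hB1 7 .n false _ _ _ _ _ (D_7_2 hB1) (D_7_3 hB1) (D_7_4 hB1) (D_7_5 hB1) c_8_0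

theorem D_8_1 : Dom 8 .n (cst true) l_8_1 :=
  step hB1 7 .n true _ _ _ _ _ (D_7_2 hB1) (D_7_3 hB1) (D_7_4 hB1) (D_7_5 hB1) c_8_1

theorem D_8_2 : Dom 8 .b (cst false) l_8_2 :=
  step hB1 7 .b false _ _ _ _ _ (D_7_2 hB1) (D_7_3 hB1) (D_7_0 hB1) (D_7_1 hB1) c_8_2

theorem D_8_3 : Dom 8 .b (cst true) l_8_3 :=
  step hB1 7 .b true _ _ _ _ _ (D_7_2 hB1) (D_7_3 hB1) (D_7_0 hB1) (D_7_1 hB1) c_8_3

theorem D_8_4 : Dom 8 .f (cst false) l_8_4 :=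
  step hB1 7 .f false _ _ _ _ _ (D_7_4 hB1) (D_7_5 hB1) (D_7_0 hB1) (D_7_1 hB1) c_8_4

theorem D_8_5 : Dom 8 .f (cst true) l_8_5 :=
  step hB1 7 .f true _ _ _ _ _ (D_7_4 hB1) (D_7_5 hB1) (D_7_0 hB1) (D_7_1 hB1) c_8_5

theorem D_9_0 : Dom 9 .n (cst false) l_9_0 :=
  step hB1 8 .n false _ _ _ _ _ (D_8_2 hB1) (D_8_3 hB1) (D_8_4 hB1) (D_8_5 hB1) c_9_0

theorem D_9_1 : Dom 9 .n (cst true) l_9_1 :=
  step hB1 8 .n true _ _ _ _ _ (D_8_2 hB1) (D_8_3 hB1) (D_8_4 hB1) (D_8_5 hB1) c_9_1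

theorem D_9_2 : Dom 9 .b (cst false) l_9_2 :=
  step hB1 8 .b false _ _ _ _ _ (D_8_2 hB1) (D_8_3 hB1) (D_8_0 hB1) (D_8_1 hB1) c_9_2

theorem D_9_3 : Dom 9 .b (cst true) l_9_3 :=
  step hB1 8 .b true _ _ _ _ _ (D_8_2 hB1) (D_8_3 hB1) (D_8_0 hB1) (D_8_1 hB1) c_9_3

theorem D_9_4 : Dom 9 .f (cst false) l_9_4 :=
  step hB1 8 .f false _ _ _ _ _ (D_8_4 hB1) (D_8_5 hB1) (D_8_0 hB1) (D_8_1 hB1) c_9_4

theorem D_9_5 : Dom 9 .f (cst true) l_9_5 :=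
  step hB1 8 .f true _ _ _ _ _ (D_8_4 hB1) (D_8_5 hB1) (D_8_0 hB1) (D_8_1 hB1) c_9_5

theorem D_10_0 : Dom 10 .n (cst false) l_10_0 :=
  step hB1 9 .n false _ _ _ _ _ (D_9_2 hB1) (D_9_3 hB1) (D_9_4 hB1) (D_9_5 hB1) c_10_0

theorem D_10_1 : Dom 10 .n (cst true) l_10_1 :=
  step hB1 9 .n true _ _ _ _ _ (D_9_2 hB1) (D_9_3 hB1) (D_9_4 hB1) (D_9_5 hB1) c_10_1

theorem D_10_2 : Dom 10 .b (cst false) l_10_2 :=
  step hB1 9 .b false _ _ _ _ _ (D_9_2 hB1) (D_9_3 hB1) (D_9_0 hB1) (D_9_1 hB1) c_10_2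

theorem D_10_3 : Dom 10 .b (cst true) l_10_3 :=
  step hB1 9 .b true _ _ _ _ _ (D_9_2 hB1) (D_9_3 hB1) (D_9_0 hB1) (D_9_1 hB1) c_10_3

theorem D_10_4 : Dom 10 .f (cst false) l_10_4 :=
  step hB1 9 .f false _ _ _ _ _ (D_9_4 hB1) (D_9_5 hB1) (D_9_0 hB1) (D_9_1 hB1) c_10_4

theorem D_10_5 : Dom 10 .f (cst true) l_10_5 :=
  step hB1 9 .f true _ _ _ _ _ (D_9_4 hB1) (D_9_5 hB1) (D_9_0 hB1) (D_9_1 hB1) c_10_5

theorem D_11_0 : Dom 11 .n (cst false) l_11_0 :=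
  step hB1 10 .n false _ _ _ _ _ (D_10_2 hB1) (D_10_3 hB1) (D_10_4 hB1) (D_10_5 hB1) c_11_0

theorem D_11_1 : Dom 11 .n (cst true) l_11_1 :=
  step hB1 10 .n true _ _ _ _ _ (D_10_2 hB1) (D_10_3 hB1) (D_10_4 hB1) (D_10_5 hB1) c_11_1

theorem D_11_2 : Dom 11 .b (cst false) l_11_2 :=
  step hB1 10 .b false _ _ _ _ _ (D_10_2 hB1) (D_10_3 hB1) (D_10_0 hB1) (D_10_1 hB1) c_11_2

theorem D_11_3 : Dom 11 .b (cst true) l_11_3 :=
  step hB1 10 .b true _ _ _ _ _ (D_10_2 hB1) (D_10_3 hB1) (D_10_0 hB1) (D_10_1 hB1) c_11_3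

theorem D_11_4 : Dom 11 .f (cst false) l_11_4 :=
  step hB1 10 .f false _ _ _ _ _ (D_10_4 hB1) (D_10_5 hB1) (D_10_0 hB1) (D_10_1 hB1) c_11_4

theorem D_11_5 : Dom 11 .f (cst true) l_11_5 :=
  step hB1 10 .f true _ _ _ _ _ (D_10_4 hB1) (D_10_5 hB1) (D_10_0 hB1) (D_10_1 hB1) c_11_5

theorem D_12_0 : Dom 12 .n (cst false) l_12_0 :=
  step hB1 11 .n false _ _ _ _ _ (D_11_2 hB1) (D_11_3 hB1) (D_11_4 hB1) (D_11_5 hB1) c_12_0

theorem D_12_1 : Dom 12 .n (cst true) l_12_1 :=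
  step hB1 11 .n true _ _ _ _ _ (D_11_2 hB1) (D_11_3 hB1) (D_11_4 hB1) (D_11_5 hB1) c_12_1

theorem D_12_2 : Dom 12 .b (cst false) l_12_2 :=
  step hB1 11 .b false _ _ _ _ _ (D_11_2 hB1) (D_11_3 hB1) (D_11_0 hB1) (D_11_1 hB1) c_12_2

theorem D_12_3 : Dom 12 .b (cst true) l_12_3 :=
  step hB1 11 .b true _ _ _ _ _ (D_11_2 hB1) (D_11_3 hB1) (D_11_0 hB1) (D_11_1 hB1) c_12_3

theorem D_12_4 : Dom 12 .f (cst false) l_12_4 :=
  step hB1 11 .f false _ _ _ _ _ (D_11_4 hB1) (D_11_5 hB1) (D_11_0 hB1) (D_11_1 hB1) c_12_4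

theorem D_12_5 : Dom 12 .f (cst true) l_12_5 :=
  step hB1 11 .f true _ _ _ _ _ (D_11_4 hB1) (D_11_5 hB1) (D_11_0 hB1) (D_11_1 hB1) c_12_5

theorem D_13_0 : Dom 13 .n (cst false) l_13_0 :=
  step hB1 12 .n false _ _ _ _ _ (D_12_2 hB1) (D_12_3 hB1) (D_12_4 hB1) (D_12_5 hB1) c_13_0

theorem D_13_1 : Dom 13 .n (cst true) l_13_1 :=
  step hB1 12 .n true _ _ _ _ _ (D_12_2 hB1) (D_12_3 hB1) (D_12_4 hB1) (D_12_5 hB1) c_13_1

theorem D_13_2 : Dom 13 .b (cst false) l_13_2 :=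
  step hB1 12 .b false _ _ _ _ _ (D_12_2 hB1) (D_12_3 hB1) (D_12_0 hB1) (D_12_1 hB1) c_13_2

theorem D_13_3 : Dom 13 .b (cst true) l_13_3 :=
  step hB1 12 .b true _ _ _ _ _ (D_12_2 hB1) (D_12_3 hB1) (D_12_0 hB1) (D_12_1 hB1) c_13_3

theorem D_13_4 : Dom 13 .f (cst false) l_13_4 :=
  step hB1 12 .f false _ _ _ _ _ (D_12_4 hB1) (D_12_5 hB1) (D_12_0 hB1) (D_12_1 hB1) c_13_4

theorem D_13_5 : Dom 13 .f (cst true) l_13_5 :=
  step hB1 12 .f true _ _ _ _ _ (D_12_4 hB1) (D_12_5 hB1) (D_12_0 hB1) (D_12_1 hB1) c_13_5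

theorem D_14_0 : Dom 14 .n (cst false) l_14_0 :=
  step hB1 13 .n false _ _ _ _ _ (D_13_2 hB1) (D_13_3 hB1) (D_13_4 hB1) (D_13_5 hB1) c_14_0

theorem D_14_1 : Dom 14 .n (cst true) l_14_1 :=
  step hB1 13 .n true _ _ _ _ _ (D_13_2 hB1) (D_13_3 hB1) (D_13_4 hB1) (D_13_5 hB1) c_14_1

theorem D_14_2 : Dom 14 .b (cst false) l_14_2 :=
  step hB1 13 .b false _ _ _ _ _ (D_13_2 hB1) (D_13_3 hB1) (D_13_0 hB1) (D_13_1 hB1) c_14_2

theorem D_14_3 : Dom 14 .b (cst true) l_14_3 :=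
  step hB1 13 .b true _ _ _ _ _ (D_13_2 hB1) (D_13_3 hB1) (D_13_0 hB1) (D_13_1 hB1) c_14_3

theorem D_14_4 : Dom 14 .f (cst false) l_14_4 :=
  step hB1 13 .f false _ _ _ _ _ (D_13_4 hB1) (D_13_5 hB1) (D_13_0 hB1) (D_13_1 hB1) c_14_4

theorem D_14_5 : Dom 14 .f (cst true) l_14_5 :=
  step hB1 13 .f true _ _ _ _ _ (D_13_4 hB1) (D_13_5 hB1) (D_13_0 hB1) (D_13_1 hB1) c_14_5

theorem D_15_0 : Dom 15 .n (cst false) l_15_0 :=
  step hB1 14 .n false _ _ _ _ _ (D_14_2 hB1) (D_14_3 hB1) (D_14_4 hB1) (D_14_5 hB1) c_15_0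

theorem D_15_1 : Dom 15 .n (cst true) l_15_1 :=
  step hB1 14 .n true _ _ _ _ _ (D_14_2 hB1) (D_14_3 hB1) (D_14_4 hB1) (D_14_5 hB1) c_15_1

theorem D_15_2 : Dom 15 .b (cst false) l_15_2 :=
  step hB1 14 .b false _ _ _ _ _ (D_14_2 hB1) (D_14_3 hB1) (D_14_0 hB1) (D_14_1 hB1) c_15_2

theorem D_15_3 : Dom 15 .b (cst true) l_15_3 :=
  step hB1 14 .b true _ _ _ _ _ (D_14_2 hB1) (D_14_3 hB1) (D_14_0 hB1) (D_14_1 hB1) c_15_3

theorem D_15_4 : Dom 15 .f (cst false) l_15_4 :=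
  step hB1 14 .f false _ _ _ _ _ (D_14_4 hB1) (D_14_5 hB1) (D_14_0 hB1) (D_14_1 hB1) c_15_4

theorem D_15_5 : Dom 15 .f (cst true) l_15_5 :=
  step hB1 14 .f true _ _ _ _ _ (D_14_4 hB1) (D_14_5 hB1) (D_14_0 hB1) (D_14_1 hB1) c_15_5

theorem D_16_0 : Dom 16 .n (cst false) l_16_0 :=
  step hB1 15 .n false _ _ _ _ _ (D_15_2 hB1) (D_15_3 hB1) (D_15_4 hB1) (D_15_5 hB1) c_16_0

theorem D_16_1 : Dom 16 .n (cst true) l_16_1 :=
  step hB1 15 .n true _ _ _ _ _ (D_15_2 hB1) (D_15_3 hB1) (D_15_4 hB1) (D_15_5 hB1) c_16_1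

theorem D_16_2 : Dom 16 .b (cst false) l_16_2 :=
  step hB1 15 .b false _ _ _ _ _ (D_15_2 hB1) (D_15_3 hB1) (D_15_0 hB1) (D_15_1 hB1) c_16_2

theorem D_16_3 : Dom 16 .b (cst true) l_16_3 :=
  step hB1 15 .b true _ _ _ _ _ (D_15_2 hB1) (D_15_3 hB1) (D_15_0 hB1) (D_15_1 hB1) c_16_3

theorem D_16_4 : Dom 16 .f (cst false) l_16_4 :=
  step hB1 15 .f false _ _ _ _ _ (D_15_4 hB1) (D_15_5 hB1) (D_15_0 hB1) (D_15_1 hB1) c_16_4

theorem D_16_5 : Dom 16 .f (cst true) l_16_5 :=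
  step hB1 15 .f true _ _ _ _ _ (D_15_4 hB1) (D_15_5 hB1) (D_15_0 hB1) (D_15_1 hB1) c_16_5

omit hB1 in
/-- weight of the full set in a list -/
theorem ev_full (l : LL) (c : ℕ) (h : c ≤ ((l.filter fun e => e.1 == 4095).map Prod.snd).sum) :
    (c : ℝ) ≤ evN l (fun X => if full ⊆ X then 1 else 0) := by
  have h1 : ((((l.filter fun e => e.1 == 4095).map Prod.snd).sum : ℕ) : ℝ) ≤
      evN l (fun X => if full ⊆ X then 1 else 0) := by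
    clear h
    induction l with
    | nil => simp [evN]
    | cons e l ih =>
      rw [evN_cons]
      by_cases he : (e.1 == 4095) = true
      · rw [List.filter_cons_of_pos (p := fun e : ℕ × ℕ => e.1 == 4095) he, List.map_cons, List.sum_cons, Nat.cast_add]
        have : full ⊆ dec e.1 := by
          intro q hq
          rw [mem_dec]
          have hq' : q.1 ≠ q.2 := by
            unfold full at hq
            simpa using hq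
          refine ⟨hq', ?_⟩
          have h4 : e.1 = 4095 := by simpa using he
          rw [h4]
          revert q
          have : ∀ q : Pr, q.1 ≠ q.2 → (4095 : ℕ).testBit (idx q) = true := by decide +kernel
          intro q _ hq
          exact this q hq
        rw [if_pos this, mul_one]
        exact add_le_add le_rfl ih
      · rw [List.filter_cons_of_neg (p := fun e : ℕ × ℕ => e.1 == 4095) he]
        have : (0 : ℝ) ≤ (e.2 : ℝ) * (if full ⊆ dec e.1 then 1 else 0) := by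
          split <;> simp
        linarith
  exact (Nat.cast_le.2 h).trans h1

omit hB1 in
theorem dec_full : dec 4095 = full := by
  ext q
  rw [mem_dec]
  have : ∀ q : Pr, q.1 ≠ q.2 → (4095 : ℕ).testBit (idx q) = true := by decide +kernel
  unfold full
  simp only [mem_filter, mem_univ, true_and]
  exact ⟨fun h => h.1, fun h => ⟨h, this q h⟩⟩

omit hB1 in
theorem sgP_id : ∀ p : Pr, sgP false false false p = p := by decide +kernel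

omit hB1 in
theorem inH_of (x : ℕ)
    (h : (Nat.beq (cmb (pk x (csL false false false)) (pk 4095 (csR false false false))) 4095 &&
      Nat.beq (cmb (pk 4095 (csL false false false)) (pk x (csR false false false))) 4095) = true) :
    InH (dec x) := by
  rw [Bool.and_eq_true, Nat.beq_eq, Nat.beq_eq] at h
  have hid : ∀ X : Finset Pr, X.image (sgP false false false) = X := by
    intro X
    have : sgP false false false = id := funext sgP_id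
    rw [this, Finset.image_id]
  constructor
  · have := dec_cmb x 4095 false false false false false false
    rw [h.1, dec_full, hid, hid] at this
    exact this.symm
  · have := dec_cmb 4095 x false false false false false false
    rw [h.2, dec_full, hid, hid] at this
    exact this.symm

/-- the test of `InH` -/
noncomputable def tH (x : ℕ) : Bool :=
  Nat.beq (cmb (pk x (csL false false false)) (pk 4095 (csR false false false))) 4095 &&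
      Nat.beq (cmb (pk 4095 (csL false false false)) (pk x (csR false false false))) 4095

/-- weight of the masks which pass the test -/
noncomputable def wH (l : LL) : ℕ :=
  List.rec 0 (fun e _ ih => Nat.add (Bool.rec 0 e.2 (tH e.1)) ih) l

omit hB1 in
theorem ev_H (l : LL) (c : ℕ) (h : Nat.ble c (wH l) = true) :
    (c : ℝ) ≤ evN l (fun X => if InH X then 1 else 0) := by
  have h1 : ((wH l : ℕ) : ℝ) ≤ evN l (fun X => if InH X then 1 else 0) := by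
    clear h
    induction l with
    | nil => 
      show ((0 : ℕ) : ℝ) ≤ _
      simp [evN]
    | cons e l ih =>
      rw [evN_cons]
      have hw : wH (e :: l) = Bool.rec (motive := fun _ => ℕ) 0 e.2 (tH e.1) + wH l := rfl
      rw [hw, Nat.cast_add]
      cases ht : tH e.1 with
      | true =>
        rw [if_pos (inH_of e.1 ht), mul_one]
        exact add_le_add le_rfl ih
      | false =>
        have : (0 : ℝ) ≤ (e.2 : ℝ) * (if InH (dec e.1) then 1 else 0) := by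
          split <;> simp
        show ((0 : ℕ) : ℝ) + _ ≤ _
        rw [Nat.cast_zero, zero_add]
        linarith
  exact (Nat.cast_le.2 (Nat.le_of_ble_eq_true h)).trans h1

omit hB1 in
theorem cst_num : ((2 : ℝ) ^ 32 * 0.98 ≤ ((4230000000 : ℕ) : ℝ)) ∧
    ((2 : ℝ) ^ 32 * 0.999 ≤ ((4291000000 : ℕ) : ℝ)) := by
  constructor <;> norm_num

omit hB1 in
theorem fin_16 (l : LL) (h1 : 4230000000 ≤ ((l.filter fun e => e.1 == 4095).map Prod.snd).sum)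
    (h2 : Nat.ble 4291000000 (wH l) = true) :
    (2 : ℝ) ^ 32 * 0.98 ≤ evN l (fun X => if full ⊆ X then 1 else 0) ∧
    (2 : ℝ) ^ 32 * 0.999 ≤ evN l (fun X => if InH X then 1 else 0) :=
  ⟨cst_num.1.trans (ev_full l _ h1), cst_num.2.trans (ev_H l _ h2)⟩

theorem base_lists (a : L) (P : Bool) : ∃ l : LL, Dom 16 a (cst P) l ∧
    (2 : ℝ) ^ 32 * 0.98 ≤ evN l (fun X => if full ⊆ X then 1 else 0) ∧
    (2 : ℝ) ^ 32 * 0.999 ≤ evN l (fun X => if InH X then 1 else 0) := by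
  cases a <;> cases P
  · exact ⟨l_16_0, D_16_0 hB1, fin_16 _ (by decide +kernel) (by decide +kernel)⟩
  · exact ⟨l_16_1, D_16_1 hB1, fin_16 _ (by decide +kernel) (by decide +kernel)⟩
  · exact ⟨l_16_2, D_16_2 hB1, fin_16 _ (by decide +kernel) (by decide +kernel)⟩
  · exact ⟨l_16_3, D_16_3 hB1, fin_16 _ (by decide +kernel) (by decide +kernel)⟩
  · exact ⟨l_16_4, D_16_4 hB1, fin_16 _ (by decide +kernel) (by decide +kernel)⟩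
  · exact ⟨l_16_5, D_16_5 hB1, fin_16 _ (by decide +kernel) (by decide +kernel)⟩

theorem base_of (hB4 : ST_B4) : ST_BASE := hB4 (base_lists hB1)

end Pool.Agent.Helper86.TC8
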