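import Pool.Agent.Helper86.TC8B.BDefs

/-!
BASE: symmetry of the law (rows B1 and B4).
-/

set_option autoImplicit false

namespace Pool.Agent.Helper86.TC8

open Finset
open scoped Classical

theorem pair_sg : ∀ (a : L) (st : St) (e h0 h1 : Bool),
    pair a (sgS e h0 h1 st) = sgP e h0 h1 (pair a st) := by decide +kernel

theorem kn_sg : ∀ (e h0 h1 : Bool) (c : L) (x y : St),
    kn c (sgS e h0 h1 x) (sgS e h0 h1 y) = kn c x y := by decide +kernel

theorem kw_sg (e h0 h1 : Bool) (c : L) (x y : St) :
    kw c (sgS e h0 h1 x) (sgS e h0 h1 y) = kw c x y := by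
  unfold kw
  rw [kn_sg]

theorem sgS_inj (e h0 h1 : Bool) : Function.Injective (sgS e h0 h1) := by
  have : ∀ (e h0 h1 : Bool) (x y : St), sgS e h0 h1 x = sgS e h0 h1 y → x = y := by decide +kernel
  exact fun x y h => this e h0 h1 x y h

theorem sgP_inj (e h0 h1 : Bool) : Function.Injective (sgP e h0 h1) := by
  have : ∀ (e h0 h1 : Bool) (x y : Pr), sgP e h0 h1 x = sgP e h0 h1 y → x = y := by decide +kernel
  exact fun x y h => this e h0 h1 x y h

theorem OKc_sg : ∀ (e h0 h1 : Bool) (q p r : Pr),
    OKc (sgP e h0 h1 q) (sgP e h0 h1 p) (sgP e h0 h1 r) = OKc q p r := by decide +kernel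

theorem sgP_ne : ∀ (e h0 h1 : Bool) (q : Pr),
    ((sgP e h0 h1 q).1 ≠ (sgP e h0 h1 q).2) ↔ (q.1 ≠ q.2) := by decide +kernel

theorem sgP_surj (e h0 h1 : Bool) : Function.Surjective (sgP e h0 h1) :=
  Finite.surjective_of_injective (sgP_inj e h0 h1)

theorem sgS_bij (e h0 h1 : Bool) : Function.Bijective (sgS e h0 h1) :=
  ⟨sgS_inj e h0 h1, Finite.surjective_of_injective (sgS_inj e h0 h1)⟩

theorem comb_sg (X Y : Finset Pr) (e h0 h1 : Bool) :
    comb (X.image (sgP e h0 h1)) (Y.image (sgP e h0 h1)) = (comb X Y).image (sgP e h0 h1) := by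
  ext q
  obtain ⟨q, rfl⟩ := sgP_surj e h0 h1 q
  rw [(sgP_inj e h0 h1).mem_finset_image]
  unfold comb
  simp only [mem_filter, mem_univ, true_and, mem_image, exists_exists_and_eq_and, OKc_sg]

theorem full_sg (e h0 h1 : Bool) : full.image (sgP e h0 h1) = full := by
  ext q
  obtain ⟨q, rfl⟩ := sgP_surj e h0 h1 q
  rw [(sgP_inj e h0 h1).mem_finset_image]
  unfold full
  simp only [mem_filter, mem_univ, true_and, sgP_ne]

theorem st_cst : ∀ st : St, st = sgS st.s st.m st.B (cst st.P) := by decide +kernel

theorem comb_full (X Y : Finset Pr) : comb X Y ⊆ full := by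
  intro q hq
  unfold comb at hq
  unfold full
  simp only [mem_filter, mem_univ, true_and] at hq ⊢
  obtain ⟨p, _, r, _, h⟩ := hq
  intro hh
  unfold OKc at h
  rw [hh] at h
  simp at h

theorem pair_full : ∀ (a : L) (st : St), (pair a st).1 ≠ (pair a st).2 := by decide +kernel

theorem kw_nn (c : L) (x y : St) : 0 ≤ kw c x y := by
  unfold kw
  positivity

theorem lawE_mono' (d : ℕ) : ∀ (a : L) (st : St) (M M' : Finset Pr → ℝ), (∀ X, M X ≤ M' X) →
    lawE d a st M ≤ lawE d a st M' := by
  induction d with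
  | zero => intro a st M M' h; exact h _
  | succ d ih =>
    intro a st M M' h
    show (∑ x : St, ∑ y : St, kw (k1 a) st x * kw (k2 a) st y *
      lawE d (k1 a) x (fun X => lawE d (k2 a) y (fun Y => M (comb X Y)))) ≤
      ∑ x : St, ∑ y : St, kw (k1 a) st x * kw (k2 a) st y *
      lawE d (k1 a) x (fun X => lawE d (k2 a) y (fun Y => M' (comb X Y)))
    apply Finset.sum_le_sum
    intro x _
    apply Finset.sum_le_sum
    intro y _
    apply mul_le_mul_of_nonneg_left _ (mul_nonneg (kw_nn _ _ _) (kw_nn _ _ _))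
    apply ih
    intro X
    apply ih
    intro Y
    exact h _

theorem lawE_sg (d : ℕ) : ∀ (a : L) (st : St) (e h0 h1 : Bool) (M : Finset Pr → ℝ),
    lawE d a (sgS e h0 h1 st) M = lawE d a st (fun X => M (X.image (sgP e h0 h1))) := by
  induction d with
  | zero =>
    intro a st e h0 h1 M
    show M {pair a (sgS e h0 h1 st)} = M (({pair a st} : Finset Pr).image (sgP e h0 h1))
    rw [pair_sg, Finset.image_singleton]
  | succ d ih =>
    intro a st e h0 h1 M
    show (∑ x : St, ∑ y : St, kw (k1 a) (sgS e h0 h1 st) x * kw (k2 a) (sgS e h0 h1 st) y *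
      lawE d (k1 a) x (fun X => lawE d (k2 a) y (fun Y => M (comb X Y)))) =
      ∑ x : St, ∑ y : St, kw (k1 a) st x * kw (k2 a) st y *
      lawE d (k1 a) x (fun X => lawE d (k2 a) y (fun Y => M ((comb X Y).image (sgP e h0 h1))))
    rw [← (sgS_bij e h0 h1).sum_comp]
    apply Finset.sum_congr rfl
    intro x _
    rw [← (sgS_bij e h0 h1).sum_comp]
    apply Finset.sum_congr rfl
    intro y _
    rw [kw_sg, kw_sg, ih]
    congr 2
    funext X
    rw [ih]
    congr 1
    funext Y
    rw [comb_sg]

theorem lawE_full (d : ℕ) (a : L) (st : St) (M M' : Finset Pr → ℝ)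
    (h : ∀ X, X ⊆ full → M X = M' X) : lawE d a st M = lawE d a st M' := by
  cases d with
  | zero =>
    apply h
    rw [Finset.singleton_subset_iff]
    unfold full
    simp only [mem_filter, mem_univ, true_and]
    exact pair_full a st
  | succ d =>
    show (∑ x : St, ∑ y : St, kw (k1 a) st x * kw (k2 a) st y *
      lawE d (k1 a) x (fun X => lawE d (k2 a) y (fun Y => M (comb X Y)))) =
      ∑ x : St, ∑ y : St, kw (k1 a) st x * kw (k2 a) st y *
      lawE d (k1 a) x (fun X => lawE d (k2 a) y (fun Y => M' (comb X Y)))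
    have : ∀ X Y, M (comb X Y) = M' (comb X Y) := fun X Y => h _ (comb_full X Y)
    simp only [this]

theorem my_B1 : ST_B1 :=
  ⟨lawE_sg, lawE_mono', lawE_full, comb_sg, full_sg, st_cst⟩

theorem comb_mn {X X' Y Y' : Finset Pr} (h : X ⊆ X') (h' : Y ⊆ Y') : comb X Y ⊆ comb X' Y' := by
  intro q hq
  unfold comb at hq ⊢
  simp only [mem_filter, mem_univ, true_and] at hq ⊢
  obtain ⟨p, hp, r, hr, hh⟩ := hq
  exact ⟨p, h hp, r, h' hr, hh⟩

theorem InH_mono {X Y : Finset Pr} (h : X ⊆ Y) (hX : InH X) : InH Y := by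
  refine ⟨Finset.Subset.antisymm (comb_full _ _) ?_, Finset.Subset.antisymm (comb_full _ _) ?_⟩
  · calc full = comb X full := hX.1.symm
      _ ⊆ comb Y full := comb_mn h (Finset.Subset.refl _)
  · calc full = comb full X := hX.2.symm
      _ ⊆ comb full Y := comb_mn (Finset.Subset.refl _) h

theorem InH_sg (X : Finset Pr) (e h0 h1 : Bool) : InH (X.image (sgP e h0 h1)) ↔ InH X := by
  have inj : ∀ Z : Finset Pr, Z.image (sgP e h0 h1) = full ↔ Z = full := by
    intro Z
    constructor
    · intro h
      apply Finset.image_injective (sgP_inj e h0 h1)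
      rw [h, full_sg]
    · intro h
      rw [h, full_sg]
  unfold InH
  have h1' : comb (X.image (sgP e h0 h1)) full = (comb X full).image (sgP e h0 h1) := by
    rw [← comb_sg, full_sg]
  have h2' : comb full (X.image (sgP e h0 h1)) = (comb full X).image (sgP e h0 h1) := by
    rw [← comb_sg, full_sg]
  rw [h1', h2', inj, inj]

theorem my_B4 : ST_B4 := by
  intro hl a st
  obtain ⟨l, hD, hf, hH⟩ := hl a st.P
  have tr : ∀ M : Finset Pr → ℝ, (∀ X, M (X.image (sgP st.s st.m st.B)) = M X) →
      lawE 16 a st M = lawE 16 a (cst st.P) M := by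
    intro M hM
    conv_lhs => rw [st_cst st]
    rw [lawE_sg]
    congr 1
    funext X
    exact hM X
  constructor
  · have h1 : lawE 16 a st (fun X => if X = full then 1 else 0) =
        lawE 16 a (cst st.P) (fun X => if full ⊆ X then 1 else 0) := by
      rw [lawE_full 16 a st _ (fun X => if full ⊆ X then (1 : ℝ) else 0)]
      · apply tr
        intro X
        have : full ⊆ X.image (sgP st.s st.m st.B) ↔ full ⊆ X := by
          conv_lhs => rw [← full_sg st.s st.m st.B]
          exact Finset.image_subset_image_iff (sgP_inj _ _ _)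
        simp only [this]
      · intro X hX
        have : X = full ↔ full ⊆ X :=
          ⟨fun h => h ▸ Finset.Subset.refl _, fun h => Finset.Subset.antisymm hX h⟩
        simp only [this]
    have h2 := hD (fun X => if full ⊆ X then 1 else 0)
      (fun X Y hXY => by
        show (if full ⊆ X then (1 : ℝ) else 0) ≤ if full ⊆ Y then 1 else 0
        by_cases hX : full ⊆ X
        · have hX' : X ⊆ Y := hXY
          rw [if_pos hX, if_pos (hX.trans hX')]
        · rw [if_neg hX]
          split <;> norm_num)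
      (fun X => by
        show (0 : ℝ) ≤ if full ⊆ X then 1 else 0
        split <;> norm_num)
    unfold pfail
    rw [h1]
    have h3 := hf.trans h2
    have h4 : (0.98 : ℝ) ≤ lawE 16 a (cst st.P) (fun X => if full ⊆ X then 1 else 0) :=
      le_of_mul_le_mul_left h3 (by positivity)
    linarith
  · have h1 : lawE 16 a st (fun X => if InH X then 1 else 0) =
        lawE 16 a (cst st.P) (fun X => if InH X then 1 else 0) := by
      apply tr
      intro X
      simp only [InH_sg]
    have h2 := hD (fun X => if InH X then 1 else 0)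
      (fun X Y hXY => by
        show (if InH X then (1 : ℝ) else 0) ≤ if InH Y then 1 else 0
        by_cases hX : InH X
        · rw [if_pos hX, if_pos (InH_mono hXY hX)]
        · rw [if_neg hX]
          split <;> norm_num)
      (fun X => by
        show (0 : ℝ) ≤ if InH X then 1 else 0
        split <;> norm_num)
    unfold pnH
    rw [h1]
    have h3 := hH.trans h2
    have h4 : (0.999 : ℝ) ≤ lawE 16 a (cst st.P) (fun X => if InH X then 1 else 0) :=
      le_of_mul_le_mul_left h3 (by positivity)
    linarith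

end Pool.Agent.Helper86.TC8
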