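import Pool.Agent.Helper86.TC8B.BK

/-!
BASE: constants and finite facts.
-/

set_option autoImplicit false

namespace Pool.Agent.Helper86.TC8

open Finset
open scoped Classical

/-- children states of a canonical state, with four times their weights -/
def kids : L → Bool → List (ℕ × St)
  | .n, false => [(2, ⟨true, true, false, false⟩), (2, ⟨true, true, true, false⟩)]
  | .n, true => [(2, ⟨true, false, false, false⟩), (2, ⟨true, false, false, true⟩)]
  | .b, false => [(2, ⟨false, false, true, true⟩), (2, ⟨false, true, true, true⟩)]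
  | .b, true => [(1, ⟨true, false, false, true⟩), (1, ⟨true, false, true, true⟩), (1, ⟨true, true, false, true⟩), (1, ⟨true, true, true, true⟩)]
  | .f, false => [(2, ⟨false, false, true, true⟩), (1, ⟨true, true, true, false⟩), (1, ⟨true, true, true, true⟩)]
  | .f, true => [(2, ⟨false, false, true, true⟩), (1, ⟨true, true, true, false⟩), (1, ⟨true, true, true, true⟩)]

/-- constants of the packed rows (first child) -/
def csL : Bool → Bool → Bool → List ℕ
  | false, false, false => [320, 40, 24, 384, 5, 3, 48, 6, 3, 48, 6, 5, 2560, 1536, 192, 3072, 1536, 192, 3072, 2560, 24, 384, 320, 40]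
  | false, false, true => [2560, 24, 40, 3072, 3, 5, 48, 6, 5, 48, 6, 3, 320, 192, 1536, 384, 192, 1536, 384, 320, 40, 3072, 2560, 24]
  | false, true, false => [384, 5, 3, 320, 40, 24, 6, 48, 24, 6, 48, 40, 3072, 1536, 192, 2560, 1536, 192, 2560, 3072, 3, 320, 384, 5]
  | false, true, true => [3072, 3, 5, 2560, 24, 40, 6, 48, 40, 6, 48, 24, 384, 192, 1536, 320, 192, 1536, 320, 384, 5, 2560, 3072, 3]
  | true, false, false => [3, 3072, 2560, 5, 384, 320, 1536, 192, 320, 1536, 192, 384, 24, 48, 6, 40, 48, 6, 40, 24, 2560, 5, 3, 3072]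
  | true, false, true => [5, 384, 320, 3, 3072, 2560, 192, 1536, 2560, 192, 1536, 3072, 40, 48, 6, 24, 48, 6, 24, 40, 320, 3, 5, 384]
  | true, true, false => [24, 2560, 3072, 40, 320, 384, 1536, 192, 384, 1536, 192, 320, 3, 6, 48, 5, 6, 48, 5, 3, 3072, 40, 24, 2560]
  | true, true, true => [40, 320, 384, 24, 2560, 3072, 192, 1536, 3072, 192, 1536, 2560, 5, 6, 48, 3, 6, 48, 3, 5, 384, 24, 40, 320]

/-- constants of the packed rows (second child) -/
def csR : Bool → Bool → Bool → List ℕ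
  | false, false, false => [2560, 1536, 192, 3072, 1536, 192, 3072, 2560, 24, 384, 320, 40, 320, 40, 24, 384, 5, 3, 48, 6, 3, 48, 6, 5]
  | false, false, true => [320, 192, 1536, 384, 192, 1536, 384, 320, 40, 3072, 2560, 24, 2560, 24, 40, 3072, 3, 5, 48, 6, 5, 48, 6, 3]
  | false, true, false => [3072, 1536, 192, 2560, 1536, 192, 2560, 3072, 3, 320, 384, 5, 384, 5, 3, 320, 40, 24, 6, 48, 24, 6, 48, 40]
  | false, true, true => [384, 192, 1536, 320, 192, 1536, 320, 384, 5, 2560, 3072, 3, 3072, 3, 5, 2560, 24, 40, 6, 48, 40, 6, 48, 24]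
  | true, false, false => [24, 48, 6, 40, 48, 6, 40, 24, 2560, 5, 3, 3072, 3, 3072, 2560, 5, 384, 320, 1536, 192, 320, 1536, 192, 384]
  | true, false, true => [40, 48, 6, 24, 48, 6, 24, 40, 320, 3, 5, 384, 5, 384, 320, 3, 3072, 2560, 192, 1536, 2560, 192, 1536, 3072]
  | true, true, false => [3, 6, 48, 5, 6, 48, 5, 3, 3072, 40, 24, 2560, 24, 2560, 3072, 40, 320, 384, 1536, 192, 384, 1536, 192, 320]
  | true, true, true => [5, 6, 48, 3, 6, 48, 3, 5, 384, 24, 40, 320, 40, 320, 384, 24, 2560, 3072, 192, 1536, 3072, 192, 1536, 2560]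

/-- the admissible child pairs -/
def OKA (q p : Pr) : Bool := (q.1 != p.1) && (q.2 != p.1) && (q.2 != p.2)

/-- the colours which are not used by a pair -/
def oth (q : Pr) : List Col :=
  [(false, false), (false, true), (true, false), (true, true)].filter fun c => (c != q.1) && (c != q.2)

/-- first other colour -/
def al (q : Pr) : Col := (oth q).getD 0 (false, false)

/-- second other colour -/
def be (q : Pr) : Col := (oth q).getD 1 (false, false)

theorem OKc_eq : ∀ q p r : Pr, OKc q p r = ((q.1 != q.2) &&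
    ((OKA q p && (p.1 == al q) && (OKA q r && (r.1 == be q))) ||
     (OKA q p && (p.1 == be q) && (OKA q r && (r.1 == al q))))) := by decide +kernel

theorem idx_lt : ∀ q : Pr, q.1 ≠ q.2 → idx q < 12 := by decide +kernel

theorem idx_surj : ∀ i < 12, ∃ q : Pr, q.1 ≠ q.2 ∧ idx q = i := by decide +kernel

theorem csL1 : ∀ e h0 h1 : Bool, ∀ q : Pr, q.1 ≠ q.2 → ∀ p : Pr, p.1 ≠ p.2 →
    ((csL e h0 h1).getD (idx q) 0).testBit (idx p) =
      (OKA q (sgP e h0 h1 p) && ((sgP e h0 h1 p).1 == al q)) := by decide +kernel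

theorem csL2 : ∀ e h0 h1 : Bool, ∀ q : Pr, q.1 ≠ q.2 → ∀ p : Pr, p.1 ≠ p.2 →
    ((csL e h0 h1).getD (12 + idx q) 0).testBit (idx p) =
      (OKA q (sgP e h0 h1 p) && ((sgP e h0 h1 p).1 == be q)) := by decide +kernel

theorem csR1 : ∀ e h0 h1 : Bool, ∀ q : Pr, q.1 ≠ q.2 → ∀ p : Pr, p.1 ≠ p.2 →
    ((csR e h0 h1).getD (idx q) 0).testBit (idx p) =
      (OKA q (sgP e h0 h1 p) && ((sgP e h0 h1 p).1 == be q)) := by decide +kernel

theorem csR2 : ∀ e h0 h1 : Bool, ∀ q : Pr, q.1 ≠ q.2 → ∀ p : Pr, p.1 ≠ p.2 →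
    ((csR e h0 h1).getD (12 + idx q) 0).testBit (idx p) =
      (OKA q (sgP e h0 h1 p) && ((sgP e h0 h1 p).1 == al q)) := by decide +kernel

theorem csL_lt : ∀ e h0 h1 : Bool, ∀ c ∈ csL e h0 h1, c < 4096 := by decide +kernel

theorem csR_lt : ∀ e h0 h1 : Bool, ∀ c ∈ csR e h0 h1, c < 4096 := by decide +kernel

theorem kids_eq : ∀ (c : L) (P : Bool) (x : St), kn c (cst P) x =
    (((kids c P).map fun e => if e.2 = x then e.1 else 0)).sum := by decide +kernel

theorem kids_tot : ∀ (c : L) (P : Bool), ((kids c P).map Prod.fst).sum = 4 := by decide +kernel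

end Pool.Agent.Helper86.TC8
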