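import Pool.Agent.Helper86.TC8B.BData

/-!
BASE: the checks, part 0.
-/

set_option autoImplicit false

namespace Pool.Agent.Helper86.TC8


theorem c_1_0 : chk .n false l_0_2 l_0_3 l_0_4 l_0_5 l_1_0 = true := by
  decide +kernel

theorem c_1_1 : chk .n true l_0_2 l_0_3 l_0_4 l_0_5 l_1_1 = true := by
  decide +kernel

theorem c_1_2 : chk .b false l_0_2 l_0_3 l_0_0 l_0_1 l_1_2 = true := by
  decide +kernel

theorem c_1_3 : chk .b true l_0_2 l_0_3 l_0_0 l_0_1 l_1_3 = true := by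
  decide +kernel

theorem c_1_4 : chk .f false l_0_4 l_0_5 l_0_0 l_0_1 l_1_4 = true := by
  decide +kernel

theorem c_1_5 : chk .f true l_0_4 l_0_5 l_0_0 l_0_1 l_1_5 = true := by
  decide +kernel

theorem c_2_0 : chk .n false l_1_2 l_1_3 l_1_4 l_1_5 l_2_0 = true := by
  decide +kernel

theorem c_2_1 : chk .n true l_1_2 l_1_3 l_1_4 l_1_5 l_2_1 = true := by
  decide +kernel

theorem c_2_2 : chk .b false l_1_2 l_1_3 l_1_0 l_1_1 l_2_2 = true := by
  decide +kernel

theorem c_2_3 : chk .b true l_1_2 l_1_3 l_1_0 l_1_1 l_2_3 = true := by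
  decide +kernel

theorem c_2_4 : chk .f false l_1_4 l_1_5 l_1_0 l_1_1 l_2_4 = true := by
  decide +kernel

theorem c_2_5 : chk .f true l_1_4 l_1_5 l_1_0 l_1_1 l_2_5 = true := by
  decide +kernel

theorem c_3_0 : chk .n false l_2_2 l_2_3 l_2_4 l_2_5 l_3_0 = true := by
  decide +kernel

theorem c_3_1 : chk .n true l_2_2 l_2_3 l_2_4 l_2_5 l_3_1 = true := by
  decide +kernel

theorem c_3_2 : chk .b false l_2_2 l_2_3 l_2_0 l_2_1 l_3_2 = true := by
  decide +kernel

theorem c_3_3 : chk .b true l_2_2 l_2_3 l_2_0 l_2_1 l_3_3 = true := by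
  decide +kernel

theorem c_3_4 : chk .f false l_2_4 l_2_5 l_2_0 l_2_1 l_3_4 = true := by
  decide +kernel

theorem c_3_5 : chk .f true l_2_4 l_2_5 l_2_0 l_2_1 l_3_5 = true := by
  decide +kernel

theorem c_4_0 : chk .n false l_3_2 l_3_3 l_3_4 l_3_5 l_4_0 = true := by
  decide +kernel

theorem c_4_1 : chk .n true l_3_2 l_3_3 l_3_4 l_3_5 l_4_1 = true := by
  decide +kernel

theorem c_4_2 : chk .b false l_3_2 l_3_3 l_3_0 l_3_1 l_4_2 = true := by
  decide +kernel

theorem c_4_3 : chk .b true l_3_2 l_3_3 l_3_0 l_3_1 l_4_3 = true := by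
  decide +kernel

theorem c_4_4 : chk .f false l_3_4 l_3_5 l_3_0 l_3_1 l_4_4 = true := by
  decide +kernel

theorem c_4_5 : chk .f true l_3_4 l_3_5 l_3_0 l_3_1 l_4_5 = true := by
  decide +kernel

end Pool.Agent.Helper86.TC8
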