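import Pool.Agent.Helper86.TC8.Stmts

/-!
BASE (numerical certificate): definitions and module statements.
-/

set_option autoImplicit false

namespace Pool.Agent.Helper86.TC8

open Finset
open scoped Classical

/-- colour symmetries -/
def sg (e h0 h1 : Bool) (c : Col) : Col := (c.1 ^^ e, c.2 ^^ (if c.1 then h1 else h0))

/-- colour symmetries on pairs -/
def sgP (e h0 h1 : Bool) (p : Pr) : Pr := (sg e h0 h1 p.1, sg e h0 h1 p.2)

/-- colour symmetries on states -/
def sgS (e h0 h1 : Bool) (x : St) : St :=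
  ⟨x.s ^^ e, x.P, x.m ^^ (if x.s then h1 else h0), x.B ^^ (if x.s then h0 else h1)⟩

/-- canonical state -/
def cst (P : Bool) : St := ⟨false, P, false, false⟩

/-- index of a pair -/
def idx (p : Pr) : ℕ :=
  let c := 2 * p.1.1.toNat + p.1.2.toNat
  let m := 2 * p.2.1.toNat + p.2.2.toNat
  3 * c + (if m < c then m else m - 1)

/-- set of pairs coded by a mask -/
noncomputable def dec (k : ℕ) : Finset Pr := univ.filter fun q => q.1 ≠ q.2 ∧ k.testBit (idx q) = true

/-- weighted sum over a coded list -/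
noncomputable def evN (l : List (ℕ × ℕ)) (M : Finset Pr → ℝ) : ℝ :=
  (l.map fun e => (e.2 : ℝ) * M (dec e.1)).sum

/-- the list is a lower bound of the law (weights in units of `2 ^ (-32)`) -/
def Dom (d : ℕ) (a : L) (st : St) (l : List (ℕ × ℕ)) : Prop :=
  ∀ M : Finset Pr → ℝ, Monotone M → (∀ X, 0 ≤ M X) → evN l M ≤ 2 ^ 32 * lawE d a st M

/-- row B1: symmetry, monotonicity and linearity of the law -/
def ST_B1 : Prop :=
  (∀ (d : ℕ) (a : L) (st : St) (e h0 h1 : Bool) (M : Finset Pr → ℝ),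
    lawE d a (sgS e h0 h1 st) M = lawE d a st (fun X => M (X.image (sgP e h0 h1)))) ∧
  (∀ (d : ℕ) (a : L) (st : St) (M M' : Finset Pr → ℝ), (∀ X, M X ≤ M' X) →
    lawE d a st M ≤ lawE d a st M') ∧
  (∀ (d : ℕ) (a : L) (st : St) (M M' : Finset Pr → ℝ), (∀ X, X ⊆ full → M X = M' X) →
    lawE d a st M = lawE d a st M') ∧
  (∀ (X Y : Finset Pr) (e h0 h1 : Bool), comb (X.image (sgP e h0 h1)) (Y.image (sgP e h0 h1)) =
    (comb X Y).image (sgP e h0 h1)) ∧
  (∀ e h0 h1 : Bool, full.image (sgP e h0 h1) = full) ∧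
  (∀ st : St, st = sgS st.s st.m st.B (cst st.P))

/-- row B4: the certificate from the lists of depth 16 -/
def ST_B4 : Prop :=
  (∀ (a : L) (P : Bool), ∃ l : List (ℕ × ℕ), Dom 16 a (cst P) l ∧
    (2 : ℝ) ^ 32 * 0.98 ≤ evN l (fun X => if full ⊆ X then 1 else 0) ∧
    (2 : ℝ) ^ 32 * 0.999 ≤ evN l (fun X => if InH X then 1 else 0)) → ST_BASE

end Pool.Agent.Helper86.TC8
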