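import Pool.Agent.Helper86.TC8B.BDefs

/-!
BASE: functions which are evaluated in the kernel.
-/

set_option autoImplicit false

namespace Pool.Agent.Helper86.TC8

/-- coded lists -/
abbrev LL := List (ℕ × ℕ)

/-- packed rows: bit `i` tells if the mask `X` hits the `i`-th constant -/
noncomputable def pk (X : ℕ) (cs : List ℕ) : ℕ :=
  List.rec 0 (fun c _ ih => Nat.add (Bool.rec 1 0 (Nat.beq (Nat.land X c) 0)) (Nat.mul 2 ih)) cs

/-- combination of packed rows -/
noncomputable def cmb (x y : ℕ) : ℕ :=
  Nat.lor (Nat.land (Nat.land x y) 4095) (Nat.shiftRight (Nat.land x y) 12)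

/-- position of the first member of `T` which is contained in `R` -/
noncomputable def pw (b R : ℕ) (T : LL) : ℕ :=
  List.rec 0 (fun e _ ih =>
    Bool.rec (Nat.mul b ih) 1 (Nat.beq (Nat.land e.1 R) e.1)) T

/-- pack the masks of a list -/
noncomputable def mpk (cs : List ℕ) (A : LL) : LL :=
  List.rec [] (fun e _ ih => (pk e.1 cs, e.2) :: ih) A

/-- inner sum -/
noncomputable def inn (b : ℕ) (T : LL) (x w : ℕ) (B : LL) : ℕ :=
  List.rec 0 (fun e _ ih => Nat.add (Nat.mul (Nat.mul w e.2) (pw b (cmb x e.1) T)) ih) B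

/-- sum over two packed lists -/
noncomputable def out (b : ℕ) (T : LL) (A B : LL) : ℕ :=
  List.rec 0 (fun e _ ih => Nat.add (inn b T e.1 e.2 B) ih) A

/-- sum over the children states -/
noncomputable def sumY (b : ℕ) (T : LL) (A : LL) (KB : List (ℕ × LL)) : ℕ :=
  List.rec 0 (fun e _ ih => Nat.add (Nat.mul e.1 (out b T A e.2)) ih) KB

/-- sum over the pairs of children states -/
noncomputable def sumXY (b : ℕ) (T : LL) (KA KB : List (ℕ × LL)) : ℕ :=
  List.rec 0 (fun e _ ih => Nat.add (Nat.mul e.1 (sumY b T e.2 KB)) ih) KA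

/-- compare the weights of the target list with the packed sum -/
noncomputable def chkT (b c : ℕ) (T : LL) : ℕ → Bool :=
  List.rec (fun _ => true) (fun e _ ih S =>
    Bool.rec false (ih (Nat.div S b)) (Nat.ble (Nat.mul e.2 c) (Nat.mod S b))) T

/-- total weight -/
noncomputable def tot (A : LL) : ℕ := List.rec 0 (fun e _ ih => Nat.add e.2 ih) A

end Pool.Agent.Helper86.TC8
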