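import Pool.Agent.Helper86.TC8B.BC

/-!
BASE: soundness of the kernel functions.
-/

set_option autoImplicit false

namespace Pool.Agent.Helper86.TC8

open Finset
open scoped Classical

/-- the mask hits the constant -/
def hit (X c : ℕ) : Bool := !(Nat.beq (Nat.land X c) 0)

theorem hit_iff (X c : ℕ) (hc : c < 4096) : hit X c = true ↔
    ∃ i < 12, X.testBit i = true ∧ c.testBit i = true := by
  unfold hit
  rw [Bool.not_eq_true', ← Bool.not_eq_true, Nat.beq_eq]
  constructor
  · intro h
    by_contra hcon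
    push Not at hcon
    apply h
    apply Nat.eq_of_testBit_eq
    intro i
    rw [Nat.zero_testBit]
    show (X &&& c).testBit i = false
    rw [Nat.testBit_land]
    by_cases hi : i < 12
    · by_cases hX : X.testBit i = true
      · have := hcon i hi hX
        simp [this]
      · simp [hX]
    · have : c.testBit i = false := Nat.testBit_lt_two_pow (lt_of_lt_of_le hc (by
        calc 4096 = 2 ^ 12 := by norm_num
          _ ≤ 2 ^ i := Nat.pow_le_pow_right (by norm_num) (by omega)))
      simp [this]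
  · rintro ⟨i, hi, h1, h2⟩ h
    have : (X &&& c).testBit i = true := by rw [Nat.testBit_land, h1, h2]; rfl
    have h' : X &&& c = 0 := h
    rw [h'] at this
    simp at this

theorem pk_cons (X c : ℕ) (cs : List ℕ) :
    pk X (c :: cs) = (if hit X c = true then 1 else 0) + 2 * pk X cs := by
  show Nat.add (Bool.rec 1 0 (Nat.beq (Nat.land X c) 0)) (Nat.mul 2 (pk X cs)) = _
  unfold hit
  cases Nat.beq (Nat.land X c) 0 <;> rfl

theorem testBit_pk (X : ℕ) (cs : List ℕ) (i : ℕ) : (pk X cs).testBit i = hit X (cs.getD i 0) := by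
  induction cs generalizing i with
  | nil =>
    show (0 : ℕ).testBit i = _
    have : hit X 0 = false := by
      unfold hit
      have : Nat.land X 0 = 0 := Nat.and_zero X
      rw [this]; rfl
    simp [this]
  | cons c cs ih =>
    rw [pk_cons]
    cases i with
    | zero =>
      rw [List.getD_cons_zero, Nat.testBit_zero]
      cases hit X c <;> simp
    | succ i =>
      rw [List.getD_cons_succ, ← ih i, Nat.testBit_succ]
      congr 1
      split <;> omega

theorem cmb_eq (x y : ℕ) : cmb x y = ((x &&& y) &&& 4095) ||| ((x &&& y) >>> 12) := rfl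

theorem testBit_cmb (x y i : ℕ) (hi : i < 12) : (cmb x y).testBit i =
    ((x.testBit i && y.testBit i) || (x.testBit (12 + i) && y.testBit (12 + i))) := by
  rw [cmb_eq, Nat.testBit_lor, Nat.testBit_shiftRight, Nat.testBit_land, Nat.testBit_land,
    Nat.testBit_land]
  have : (4095 : ℕ).testBit i = true := by
    interval_cases i <;> rfl
  rw [this, Bool.and_true]

theorem mem_dec (k : ℕ) (q : Pr) : q ∈ dec k ↔ q.1 ≠ q.2 ∧ k.testBit (idx q) = true := by
  unfold dec
  simp

theorem hit_dec (X c : ℕ) (hc : c < 4096) : hit X c = true ↔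
    ∃ p ∈ dec X, c.testBit (idx p) = true := by
  rw [hit_iff X c hc]
  constructor
  · rintro ⟨i, hi, h1, h2⟩
    obtain ⟨p, hp, rfl⟩ := idx_surj i hi
    exact ⟨p, (mem_dec _ _).2 ⟨hp, h1⟩, h2⟩
  · rintro ⟨p, hp, h2⟩
    have := (mem_dec _ _).1 hp
    exact ⟨idx p, idx_lt p this.1, this.2, h2⟩

theorem getD_lt (l : List ℕ) (i : ℕ) (h : ∀ c ∈ l, c < 4096) : l.getD i 0 < 4096 := by
  by_cases hi : i < l.length
  · rw [List.getD_eq_getElem _ _ hi]
    exact h _ (List.getElem_mem hi)
  · rw [List.getD_eq_default _ _ (by omega)]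
    norm_num

theorem dec_cmb (X Y : ℕ) (e h0 h1 e' h0' h1' : Bool) :
    dec (cmb (pk X (csL e h0 h1)) (pk Y (csR e' h0' h1'))) =
      comb ((dec X).image (sgP e h0 h1)) ((dec Y).image (sgP e' h0' h1')) := by
  ext q
  rw [mem_dec]
  unfold comb
  simp only [mem_filter, mem_univ, true_and, mem_image, exists_exists_and_eq_and]
  by_cases hq : q.1 = q.2
  · constructor
    · rintro ⟨h, _⟩
      exact absurd hq h
    · rintro ⟨p, _, r, _, h⟩
      rw [OKc_eq, hq] at h
      simp at h
  · have hq' : (q.1 != q.2) = true := by simpa using hq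
    rw [testBit_cmb _ _ _ (idx_lt q hq)]
    simp only [testBit_pk, Bool.or_eq_true, Bool.and_eq_true]
    rw [hit_dec _ _ (getD_lt _ _ (csL_lt _ _ _)), hit_dec _ _ (getD_lt _ _ (csL_lt _ _ _)),
      hit_dec _ _ (getD_lt _ _ (csR_lt _ _ _)), hit_dec _ _ (getD_lt _ _ (csR_lt _ _ _))]
    constructor
    · rintro ⟨_, h⟩
      rcases h with ⟨⟨p, hp, hp'⟩, ⟨r, hr, hr'⟩⟩ | ⟨⟨p, hp, hp'⟩, ⟨r, hr, hr'⟩⟩
      · rw [csL1 _ _ _ q hq p ((mem_dec _ _).1 hp).1] at hp'
        rw [csR1 _ _ _ q hq r ((mem_dec _ _).1 hr).1] at hr'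
        refine ⟨p, hp, r, hr, ?_⟩
        rw [OKc_eq, hq', hp', hr']
        rfl
      · rw [csL2 _ _ _ q hq p ((mem_dec _ _).1 hp).1] at hp'
        rw [csR2 _ _ _ q hq r ((mem_dec _ _).1 hr).1] at hr'
        refine ⟨p, hp, r, hr, ?_⟩
        rw [OKc_eq, hq', hp', hr']
        simp
    · rintro ⟨p, hp, r, hr, h⟩
      refine ⟨hq, ?_⟩
      rw [OKc_eq, hq'] at h
      simp only [Bool.true_and, Bool.or_eq_true] at h
      rcases h with h | h
      · left
        rw [Bool.and_eq_true] at h
        exact ⟨⟨p, hp, by rw [csL1 _ _ _ q hq p ((mem_dec _ _).1 hp).1]; exact h.1⟩,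
          ⟨r, hr, by rw [csR1 _ _ _ q hq r ((mem_dec _ _).1 hr).1]; exact h.2⟩⟩
      · right
        rw [Bool.and_eq_true] at h
        exact ⟨⟨p, hp, by rw [csL2 _ _ _ q hq p ((mem_dec _ _).1 hp).1]; exact h.1⟩,
          ⟨r, hr, by rw [csR2 _ _ _ q hq r ((mem_dec _ _).1 hr).1]; exact h.2⟩⟩

/-! ### the packed sum -/

theorem pw_cons (b R : ℕ) (e : ℕ × ℕ) (T : LL) : pw b R (e :: T) =
    if e.1 &&& R = e.1 then 1 else b * pw b R T := by
  show Bool.rec (motive := fun _ => ℕ) (Nat.mul b (pw b R T)) 1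
    (Nat.beq (Nat.land e.1 R) e.1) = _
  by_cases h : e.1 &&& R = e.1
  · have : Nat.beq (Nat.land e.1 R) e.1 = true := by rw [Nat.beq_eq]; exact h
    rw [this, if_pos h]
  · have : Nat.beq (Nat.land e.1 R) e.1 = false := by
      rw [← Bool.not_eq_true, Nat.beq_eq]; exact h
    rw [this, if_neg h]
    rfl

theorem chkT_cons (b c : ℕ) (e : ℕ × ℕ) (T : LL) (S : ℕ) : chkT b c (e :: T) S = true ↔
    (e.2 * c ≤ S % b ∧ chkT b c T (S / b) = true) := by
  show Bool.rec (motive := fun _ => Bool) false (chkT b c T (Nat.div S b))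
    (Nat.ble (Nat.mul e.2 c) (Nat.mod S b)) = true ↔ _
  cases hb : Nat.ble (Nat.mul e.2 c) (Nat.mod S b) with
  | false =>
    constructor
    · intro h; exact absurd h (by simp)
    · rintro ⟨h, _⟩
      have h' : Nat.ble (Nat.mul e.2 c) (Nat.mod S b) = true := Nat.ble_eq_true_of_le h
      rw [hb] at h'
      exact absurd h' (by simp)
  | true =>
    have h' := Nat.le_of_ble_eq_true hb
    constructor
    · intro h; exact ⟨h', h⟩
    · rintro ⟨_, h⟩; exact h

/-- packed sum of a list of weighted masks -/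
noncomputable def psum (b : ℕ) (T rs : LL) : ℕ := (rs.map fun e => e.2 * pw b e.1 T).sum

theorem dec_mono {t R : ℕ} (h : t &&& R = t) : dec t ⊆ dec R := by
  intro q hq
  rw [mem_dec] at hq ⊢
  refine ⟨hq.1, ?_⟩
  have := hq.2
  rw [← h, Nat.testBit_land, Bool.and_eq_true] at this
  exact this.2

theorem psum_cons (b : ℕ) (t : ℕ × ℕ) (T rs : LL) : psum b (t :: T) rs =
    ((rs.filter fun e => decide (t.1 &&& e.1 = t.1)).map Prod.snd).sum +
      b * psum b T (rs.filter fun e => !decide (t.1 &&& e.1 = t.1)) := by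
  induction rs with
  | nil => rfl
  | cons e rs ih =>
    unfold psum at ih ⊢
    rw [List.map_cons, List.sum_cons, ih, pw_cons]
    by_cases h : t.1 &&& e.1 = t.1
    · rw [if_pos h, List.filter_cons_of_pos (by simpa using h),
        List.filter_cons_of_neg (by simpa using h), List.map_cons, List.sum_cons]
      ring
    · rw [if_neg h, List.filter_cons_of_neg (by simpa using h),
        List.filter_cons_of_pos (by simpa using h), List.map_cons, List.sum_cons]
      ring

theorem sum_filter_le (rs : LL) (p : ℕ × ℕ → Bool) :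
    ((rs.filter p).map Prod.snd).sum ≤ (rs.map Prod.snd).sum := by
  induction rs with
  | nil => rfl
  | cons e rs ih =>
    by_cases h : p e = true
    · rw [List.filter_cons_of_pos h]
      simp only [List.map_cons, List.sum_cons]
      omega
    · rw [List.filter_cons_of_neg h]
      simp only [List.map_cons, List.sum_cons]
      omega

theorem evN_cons (e : ℕ × ℕ) (l : LL) (M : Finset Pr → ℝ) :
    evN (e :: l) M = (e.2 : ℝ) * M (dec e.1) + evN l M := by
  unfold evN
  rw [List.map_cons, List.sum_cons]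

theorem evN_filter (rs : LL) (p : ℕ × ℕ → Bool) (M : Finset Pr → ℝ) :
    evN rs M = evN (rs.filter p) M + evN (rs.filter fun e => !p e) M := by
  induction rs with
  | nil => simp [evN]
  | cons e rs ih =>
    rw [evN_cons, ih]
    by_cases h : p e = true
    · rw [List.filter_cons_of_pos h, List.filter_cons_of_neg (by simpa using h), evN_cons]
      ring
    · rw [List.filter_cons_of_neg h, List.filter_cons_of_pos (by simpa using h), evN_cons]
      ring

theorem evN_lower (t : ℕ) (rs : LL) (M : Finset Pr → ℝ) (hM : Monotone M)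
    (h : ∀ e ∈ rs, t &&& e.1 = t) :
    (((rs.map Prod.snd).sum : ℕ) : ℝ) * M (dec t) ≤ evN rs M := by
  induction rs with
  | nil => simp [evN]
  | cons e rs ih =>
    rw [evN_cons, List.map_cons, List.sum_cons, Nat.cast_add]
    have h1 := ih fun e' he' => h e' (List.mem_cons_of_mem _ he')
    have h2 : M (dec t) ≤ M (dec e.1) := hM (dec_mono (h e List.mem_cons_self))
    have h3 : (0 : ℝ) ≤ (e.2 : ℝ) := Nat.cast_nonneg _
    have h4 := mul_le_mul_of_nonneg_left h2 h3
    rw [add_mul]
    exact add_le_add h4 h1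

theorem evN_nonneg (l : LL) (M : Finset Pr → ℝ) (hM0 : ∀ X, 0 ≤ M X) : 0 ≤ evN l M := by
  unfold evN
  apply List.sum_nonneg
  intro x hx
  rw [List.mem_map] at hx
  obtain ⟨e, _, rfl⟩ := hx
  exact mul_nonneg (Nat.cast_nonneg _) (hM0 _)

theorem chkT_sound (b c : ℕ) (M : Finset Pr → ℝ) (hM : Monotone M) (hM0 : ∀ X, 0 ≤ M X)
    (T : LL) : ∀ rs : LL, (rs.map Prod.snd).sum < b → chkT b c T (psum b T rs) = true →
      (c : ℝ) * evN T M ≤ evN rs M := by
  induction T with
  | nil =>
    intro rs _ _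
    have h0 : evN [] M = 0 := rfl
    rw [h0, mul_zero]
    exact evN_nonneg rs M hM0
  | cons t T ih =>
    intro rs hrs hc
    have hb : 0 < b := lt_of_le_of_lt (Nat.zero_le _) hrs
    rw [chkT_cons, psum_cons] at hc
    have hl1 : ((rs.filter fun e => decide (t.1 &&& e.1 = t.1)).map Prod.snd).sum < b :=
      lt_of_le_of_lt (sum_filter_le _ _) hrs
    have hl2 : ((rs.filter fun e => !decide (t.1 &&& e.1 = t.1)).map Prod.snd).sum < b :=
      lt_of_le_of_lt (sum_filter_le _ _) hrs
    rw [Nat.add_mul_mod_self_left, Nat.mod_eq_of_lt hl1, Nat.add_mul_div_left _ _ hb,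
      Nat.div_eq_of_lt hl1, Nat.zero_add] at hc
    have h2 := ih _ hl2 hc.2
    have h1 := evN_lower t.1 (rs.filter fun e => decide (t.1 &&& e.1 = t.1)) M hM (by
      intro e he
      have := (List.mem_filter.1 he).2
      simpa using this)
    have h3 : ((t.2 * c : ℕ) : ℝ) ≤
      ((((rs.filter fun e => decide (t.1 &&& e.1 = t.1)).map Prod.snd).sum : ℕ) : ℝ) :=
      Nat.cast_le.2 hc.1
    rw [evN_filter rs (fun e => decide (t.1 &&& e.1 = t.1)) M, evN_cons]
    have h4 := mul_le_mul_of_nonneg_right h3 (hM0 (dec t.1))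
    rw [Nat.cast_mul] at h4
    calc (c : ℝ) * ((t.2 : ℝ) * M (dec t.1) + evN T M)
        = ((t.2 : ℝ) * c) * M (dec t.1) + c * evN T M := by ring
      _ ≤ _ := add_le_add (h4.trans h1) h2

end Pool.Agent.Helper86.TC8
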