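import Pool.Agent.Helper86.TC8B.BS

/-!
BASE: the step.
-/

set_option autoImplicit false

namespace Pool.Agent.Helper86.TC8

open Finset
open scoped Classical

/-- packed lists of the first child -/
noncomputable def KAL (a : L) (P : Bool) (A0 A1 : LL) : List (ℕ × LL) :=
  (kids (k1 a) P).map fun e => (e.1, mpk (csL e.2.s e.2.m e.2.B) (cond e.2.P A1 A0))

/-- packed lists of the second child -/
noncomputable def KBL (a : L) (P : Bool) (B0 B1 : LL) : List (ℕ × LL) :=
  (kids (k2 a) P).map fun e => (e.1, mpk (csR e.2.s e.2.m e.2.B) (cond e.2.P B1 B0))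

/-- the check of one list -/
noncomputable def chk (a : L) (P : Bool) (A0 A1 B0 B1 T : LL) : Bool :=
  (Nat.ble (tot A0) 4294967296 && Nat.ble (tot A1) 4294967296) &&
  ((Nat.ble (tot B0) 4294967296 && Nat.ble (tot B1) 4294967296) &&
  chkT 4722366482869645213696 68719476736 T
    (sumXY 4722366482869645213696 T (KAL a P A0 A1) (KBL a P B0 B1)))

section generic

variable {R : Type} [CommSemiring R]

/-- generic weighted sum -/
def gs (φ : ℕ → R) (rs : LL) : R := (rs.map fun e => (e.2 : R) * φ e.1).sum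

theorem gs_nil (φ : ℕ → R) : gs φ [] = 0 := rfl

theorem gs_cons (φ : ℕ → R) (e : ℕ × ℕ) (l : LL) : gs φ (e :: l) = (e.2 : R) * φ e.1 + gs φ l := by
  unfold gs
  rw [List.map_cons, List.sum_cons]

theorem gs_append (φ : ℕ → R) (l l' : LL) : gs φ (l ++ l') = gs φ l + gs φ l' := by
  unfold gs
  rw [List.map_append, List.sum_append]

theorem gs_flatMap {α : Type} (φ : ℕ → R) (l : List α) (f : α → LL) :
    gs φ (l.flatMap f) = (l.map fun x => gs φ (f x)).sum := by
  induction l with
  | nil => rfl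
  | cons x l ih => rw [List.flatMap_cons, gs_append, ih, List.map_cons, List.sum_cons]

/-- products of two packed lists -/
noncomputable def rsF (A B : LL) (k : ℕ) : LL :=
  A.flatMap fun e => B.map fun f => (cmb e.1 f.1, k * (e.2 * f.2))

/-- all products -/
noncomputable def rsL (KA KB : List (ℕ × LL)) : LL :=
  KA.flatMap fun p => KB.flatMap fun q => rsF p.2 q.2 (p.1 * q.1)

theorem gs_rsF (φ : ℕ → R) (A B : LL) (k : ℕ) : gs φ (rsF A B k) =
    (k : R) * (A.map fun e => (e.2 : R) * gs (fun y => φ (cmb e.1 y)) B).sum := by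
  unfold rsF
  rw [gs_flatMap, ← List.sum_map_mul_left]
  congr 1
  apply List.map_congr_left
  intro e _
  unfold gs
  rw [List.map_map, ← List.sum_map_mul_left, ← List.sum_map_mul_left]
  congr 1
  apply List.map_congr_left
  intro f _
  simp only [Function.comp_apply, Nat.cast_mul]
  ring

theorem gs_rsL (φ : ℕ → R) (KA KB : List (ℕ × LL)) : gs φ (rsL KA KB) =
    (KA.map fun p => (p.1 : R) * (KB.map fun q => (q.1 : R) *
      (p.2.map fun e => (e.2 : R) * gs (fun y => φ (cmb e.1 y)) q.2).sum).sum).sum := by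
  unfold rsL
  rw [gs_flatMap]
  congr 1
  apply List.map_congr_left
  intro p _
  rw [gs_flatMap, ← List.sum_map_mul_left]
  congr 1
  apply List.map_congr_left
  intro q _
  rw [gs_rsF, Nat.cast_mul, mul_assoc]

end generic

theorem inn_eq (b : ℕ) (T : LL) (x w : ℕ) (B : LL) :
    inn b T x w B = w * gs (R := ℕ) (fun y => pw b (cmb x y) T) B := by
  induction B with
  | nil => rfl
  | cons f B ih =>
    rw [gs_cons, mul_add, ← ih]
    show w * f.2 * pw b (cmb x f.1) T + inn b T x w B = _
    simp only [Nat.cast_id]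
    ring

theorem out_eq (b : ℕ) (T : LL) (A B : LL) : out b T A B =
    (A.map fun e => e.2 * gs (R := ℕ) (fun y => pw b (cmb e.1 y) T) B).sum := by
  induction A with
  | nil => rfl
  | cons e A ih =>
    rw [List.map_cons, List.sum_cons, ← ih, ← inn_eq]
    rfl

theorem sumY_eq (b : ℕ) (T : LL) (A : LL) (KB : List (ℕ × LL)) : sumY b T A KB =
    (KB.map fun q => q.1 * out b T A q.2).sum := by
  induction KB with
  | nil => rfl
  | cons q KB ih =>
    rw [List.map_cons, List.sum_cons, ← ih]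
    rfl

theorem sumXY_eq (b : ℕ) (T : LL) (KA KB : List (ℕ × LL)) : sumXY b T KA KB =
    (KA.map fun p => p.1 * sumY b T p.2 KB).sum := by
  induction KA with
  | nil => rfl
  | cons q KA ih =>
    rw [List.map_cons, List.sum_cons, ← ih]
    rfl

theorem sumXY_psum (b : ℕ) (T : LL) (KA KB : List (ℕ × LL)) :
    sumXY b T KA KB = psum b T (rsL KA KB) := by
  have h : psum b T (rsL KA KB) = gs (R := ℕ) (fun R => pw b R T) (rsL KA KB) := by
    unfold psum gs
    simp only [Nat.cast_id]
  rw [h, gs_rsL, sumXY_eq]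
  simp only [Nat.cast_id]
  congr 1
  apply List.map_congr_left
  intro p _
  rw [sumY_eq]
  congr 2
  apply List.map_congr_left
  intro q _
  rw [out_eq]

theorem tot_eq (A : LL) : tot A = (A.map Prod.snd).sum := by
  induction A with
  | nil => rfl
  | cons e A ih =>
    rw [List.map_cons, List.sum_cons, ← ih]
    rfl

theorem gs_one (A : LL) : gs (R := ℕ) (fun _ => 1) A = tot A := by
  rw [tot_eq]
  unfold gs
  simp

theorem tot_rsL (KA KB : List (ℕ × LL)) : ((rsL KA KB).map Prod.snd).sum =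
    (KA.map fun p => p.1 * tot p.2).sum * (KB.map fun q => q.1 * tot q.2).sum := by
  rw [← tot_eq, ← gs_one, gs_rsL]
  simp only [Nat.cast_id, gs_one]
  rw [← List.sum_map_mul_right]
  congr 1
  apply List.map_congr_left
  intro p _
  rw [mul_assoc]
  congr 1
  rw [← List.sum_map_mul_left]
  congr 1
  apply List.map_congr_left
  intro q _
  rw [List.sum_map_mul_right, ← tot_eq]
  ring

theorem mpk_eq (cs : List ℕ) (A : LL) : mpk cs A = A.map fun e => (pk e.1 cs, e.2) := by
  induction A with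
  | nil => rfl
  | cons e A ih =>
    rw [List.map_cons, ← ih]
    rfl

theorem mpk_map_sum (cs : List ℕ) (A : LL) (F : ℕ × ℕ → ℝ) :
    ((mpk cs A).map F).sum = (A.map fun e => F (pk e.1 cs, e.2)).sum := by
  rw [mpk_eq, List.map_map]
  rfl

theorem tot_mpk (cs : List ℕ) (A : LL) : tot (mpk cs A) = tot A := by
  rw [mpk_eq, tot_eq, tot_eq, List.map_map]
  rfl

theorem gs_mpk {R : Type} [CommSemiring R] (φ : ℕ → R) (cs : List ℕ) (A : LL) :
    gs φ (mpk cs A) = gs (fun x => φ (pk x cs)) A := by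
  rw [mpk_eq]
  unfold gs
  rw [List.map_map]
  rfl

theorem kids_bound (K : List (ℕ × St)) (hK : (K.map Prod.fst).sum = 4) (g : St → LL)
    (hg : ∀ x, tot (g x) ≤ 4294967296) :
    ((K.map fun e => (e.1, g e.2)).map fun p => p.1 * tot p.2).sum ≤ 4 * 4294967296 := by
  rw [← hK]
  clear hK
  induction K with
  | nil => simp
  | cons e K ih =>
    simp only [List.map_cons, List.sum_cons, add_mul] at ih ⊢
    exact add_le_add (Nat.mul_le_mul_left _ (hg _)) ih

theorem sum_St (F : St → ℝ) (c : L) (P : Bool) :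
    ∑ x : St, kw c (cst P) x * F x = (1 / 4) * ((kids c P).map fun e => (e.1 : ℝ) * F e.2).sum := by
  have h : ∀ x : St, kw c (cst P) x * F x =
      (1 / 4) * ((kids c P).map fun e => if e.2 = x then (e.1 : ℝ) * F e.2 else 0).sum := by
    intro x
    unfold kw
    rw [kids_eq]
    generalize kids c P = K
    induction K with
    | nil => simp
    | cons e K ih =>
      simp only [List.map_cons, List.sum_cons]
      rw [mul_add, ← ih]
      by_cases hx : e.2 = x
      · rw [if_pos hx, if_pos hx, hx]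
        push_cast
        ring
      · rw [if_neg hx, if_neg hx]
        push_cast
        ring
  rw [Finset.sum_congr rfl fun x _ => h x, ← Finset.mul_sum]
  congr 1
  generalize kids c P = K
  induction K with
  | nil => simp
  | cons e K ih =>
    simp only [List.map_cons, List.sum_cons]
    rw [Finset.sum_add_distrib, ih, Finset.sum_ite_eq]
    simp

theorem evN_gs (l : LL) (M : Finset Pr → ℝ) : evN l M = gs (fun X => M (dec X)) l := rfl

theorem comb_mono {X X' Y Y' : Finset Pr} (h : X ⊆ X') (h' : Y ⊆ Y') : comb X Y ⊆ comb X' Y' := by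
  intro q hq
  unfold comb at hq ⊢
  simp only [mem_filter, mem_univ, true_and] at hq ⊢
  obtain ⟨p, hp, r, hr, hh⟩ := hq
  exact ⟨p, h hp, r, h' hr, hh⟩

theorem list_sum_le {α : Type} (K : List α) (f g : α → ℝ) (h : ∀ x ∈ K, f x ≤ g x) :
    (K.map f).sum ≤ (K.map g).sum := List.sum_le_sum h

/-- transport of the lower bound to all states -/
theorem Dom_tr (hB1 : ST_B1) (d : ℕ) (a : L) (l0 l1 : LL) (h0 : Dom d a (cst false) l0)
    (h1 : Dom d a (cst true) l1) (x : St) (M : Finset Pr → ℝ) (hM : Monotone M)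
    (hM0 : ∀ X, 0 ≤ M X) :
    evN (cond x.P l1 l0) (fun X => M (X.image (sgP x.s x.m x.B))) ≤ 2 ^ 32 * lawE d a x M := by
  obtain ⟨hs, -, -, -, -, hst⟩ := hB1
  have hx : lawE d a x M = lawE d a (cst x.P) (fun X => M (X.image (sgP x.s x.m x.B))) := by
    rw [← hs d a (cst x.P) x.s x.m x.B M, ← hst x]
  rw [hx]
  have hm : Monotone fun X : Finset Pr => M (X.image (sgP x.s x.m x.B)) :=
    fun X Y hXY => hM (Finset.image_subset_image hXY)
  cases hP : x.P with
  | false => exact h0 _ hm fun X => hM0 _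
  | true => exact h1 _ hm fun X => hM0 _

theorem lawE_nonneg' (hB1 : ST_B1) (d : ℕ) (a : L) (st : St) (M : Finset Pr → ℝ)
    (hM0 : ∀ X, 0 ≤ M X) : 0 ≤ lawE d a st M := by
  have h0 : ∀ (d : ℕ) (a : L) (st : St), lawE d a st (fun _ => 0) = 0 := by
    intro d
    induction d with
    | zero => intro a st; rfl
    | succ d ih =>
      intro a st
      show ∑ x : St, ∑ y : St, kw (k1 a) st x * kw (k2 a) st y *
        lawE d (k1 a) x (fun X => lawE d (k2 a) y (fun Y => 0)) = 0
      simp only [ih, mul_zero, Finset.sum_const_zero]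
  have := hB1.2.1 d a st (fun _ => 0) M hM0
  rw [h0] at this
  exact this

theorem kw_nonneg (c : L) (x y : St) : 0 ≤ kw c x y := by
  unfold kw
  positivity

theorem step (hB1 : ST_B1) (d : ℕ) (a : L) (P : Bool) (A0 A1 B0 B1 T : LL)
    (hA0 : Dom d (k1 a) (cst false) A0) (hA1 : Dom d (k1 a) (cst true) A1)
    (hB0 : Dom d (k2 a) (cst false) B0) (hB1' : Dom d (k2 a) (cst true) B1)
    (hc : chk a P A0 A1 B0 B1 T = true) : Dom (d + 1) a (cst P) T := by
  intro M hM hM0
  unfold chk at hc
  rw [Bool.and_eq_true, Bool.and_eq_true, Bool.and_eq_true, Bool.and_eq_true] at hc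
  obtain ⟨⟨t1, t2⟩, ⟨t3, t4⟩, hc⟩ := hc
  have t1 := Nat.le_of_ble_eq_true t1
  have t2 := Nat.le_of_ble_eq_true t2
  have t3 := Nat.le_of_ble_eq_true t3
  have t4 := Nat.le_of_ble_eq_true t4
  rw [sumXY_psum] at hc
  have htot : ((rsL (KAL a P A0 A1) (KBL a P B0 B1)).map Prod.snd).sum <
      4722366482869645213696 := by
    rw [tot_rsL]
    have e1 : ((KAL a P A0 A1).map fun p => p.1 * tot p.2).sum ≤ 4 * 4294967296 := by
      apply kids_bound (kids (k1 a) P) (kids_tot _ _)
        (fun x => mpk (csL x.s x.m x.B) (cond x.P A1 A0))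
      intro x
      rw [tot_mpk]
      cases x.P <;> assumption
    have e2 : ((KBL a P B0 B1).map fun p => p.1 * tot p.2).sum ≤ 4 * 4294967296 := by
      apply kids_bound (kids (k2 a) P) (kids_tot _ _)
        (fun x => mpk (csR x.s x.m x.B) (cond x.P B1 B0))
      intro x
      rw [tot_mpk]
      cases x.P <;> assumption
    exact lt_of_le_of_lt (Nat.mul_le_mul e1 e2) (by norm_num)
  have key := chkT_sound _ _ M hM hM0 T _ htot hc
  rw [evN_gs (rsL _ _), gs_rsL] at key
  -- the law
  have hlaw : lawE (d + 1) a (cst P) M = (1 / 4) * ((kids (k1 a) P).map fun p => (p.1 : ℝ) *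
      ((1 / 4) * ((kids (k2 a) P).map fun q => (q.1 : ℝ) *
        lawE d (k1 a) p.2 (fun X => lawE d (k2 a) q.2 (fun Y => M (comb X Y)))).sum)).sum := by
    refine Eq.trans ?_ (sum_St (fun x => (1 / 4) * ((kids (k2 a) P).map fun q => (q.1 : ℝ) *
        lawE d (k1 a) x (fun X => lawE d (k2 a) q.2 (fun Y => M (comb X Y)))).sum) (k1 a) P)
    show ∑ x : St, ∑ y : St, kw (k1 a) (cst P) x * kw (k2 a) (cst P) y *
        lawE d (k1 a) x (fun X => lawE d (k2 a) y (fun Y => M (comb X Y))) = _
    apply Finset.sum_congr rfl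
    intro x _
    rw [← sum_St (fun y => lawE d (k1 a) x (fun X => lawE d (k2 a) y (fun Y => M (comb X Y))))
      (k2 a) P, Finset.mul_sum]
    apply Finset.sum_congr rfl
    intro y _
    ring
  have hmain : ∀ p ∈ kids (k1 a) P, ∀ q ∈ kids (k2 a) P,
      ((mpk (csL p.2.s p.2.m p.2.B) (cond p.2.P A1 A0)).map fun e => (e.2 : ℝ) *
        gs (fun y => M (dec (cmb e.1 y)))
          (mpk (csR q.2.s q.2.m q.2.B) (cond q.2.P B1 B0))).sum ≤
      2 ^ 64 * lawE d (k1 a) p.2 (fun X => lawE d (k2 a) q.2 (fun Y => M (comb X Y))) := by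
    intro p _ q _
    have e1 : ((mpk (csL p.2.s p.2.m p.2.B) (cond p.2.P A1 A0)).map fun e => (e.2 : ℝ) *
        gs (fun y => M (dec (cmb e.1 y)))
          (mpk (csR q.2.s q.2.m q.2.B) (cond q.2.P B1 B0))).sum =
        evN (cond p.2.P A1 A0) (fun X => evN (cond q.2.P B1 B0) (fun Y =>
          M (comb (X.image (sgP p.2.s p.2.m p.2.B)) (Y.image (sgP q.2.s q.2.m q.2.B))))) := by
      rw [mpk_map_sum]
      unfold evN
      congr 1
      apply List.map_congr_left
      intro e _
      congr 1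
      rw [gs_mpk]
      unfold gs
      congr 1
      apply List.map_congr_left
      intro f _
      show (f.2 : ℝ) * M (dec (cmb (pk e.1 (csL p.2.s p.2.m p.2.B))
        (pk f.1 (csR q.2.s q.2.m q.2.B)))) = _
      rw [dec_cmb]
    rw [e1]
    have hmY : ∀ X : Finset Pr, Monotone fun Y => M (comb X Y) :=
      fun X Y Y' h => hM (comb_mono (Finset.Subset.refl _) h)
    have h2 : ∀ X : Finset Pr, evN (cond q.2.P B1 B0) (fun Y =>
          M (comb X (Y.image (sgP q.2.s q.2.m q.2.B)))) ≤
        2 ^ 32 * lawE d (k2 a) q.2 (fun Y => M (comb X Y)) :=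
      fun X => Dom_tr hB1 d (k2 a) B0 B1 hB0 hB1' q.2 _ (hmY X) fun Y => hM0 _
    have h1 := Dom_tr hB1 d (k1 a) A0 A1 hA0 hA1 p.2
      (fun X => lawE d (k2 a) q.2 (fun Y => M (comb X Y)))
      (fun X X' h => hB1.2.1 _ _ _ _ _ fun Y => hM (comb_mono h (Finset.Subset.refl _)))
      (fun X => lawE_nonneg' hB1 _ _ _ _ fun Y => hM0 _)
    have h3 : evN (cond p.2.P A1 A0) (fun X => evN (cond q.2.P B1 B0) (fun Y =>
          M (comb (X.image (sgP p.2.s p.2.m p.2.B)) (Y.image (sgP q.2.s q.2.m q.2.B))))) ≤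
        2 ^ 32 * evN (cond p.2.P A1 A0) (fun X => lawE d (k2 a) q.2 (fun Y =>
          M (comb (X.image (sgP p.2.s p.2.m p.2.B)) Y))) := by
      unfold evN
      rw [← List.sum_map_mul_left]
      apply list_sum_le
      intro e _
      have := mul_le_mul_of_nonneg_left (h2 ((dec e.1).image (sgP p.2.s p.2.m p.2.B)))
        (Nat.cast_nonneg (α := ℝ) e.2)
      refine le_trans this (le_of_eq ?_)
      ring
    refine h3.trans ?_
    have h4 := mul_le_mul_of_nonneg_left h1 (show (0 : ℝ) ≤ 2 ^ 32 by positivity)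
    refine h4.trans (le_of_eq ?_)
    ring
  have hfin : ((KAL a P A0 A1).map fun p => (p.1 : ℝ) * ((KBL a P B0 B1).map fun q => (q.1 : ℝ) *
      (p.2.map fun e => (e.2 : ℝ) * gs (fun y => M (dec (cmb e.1 y))) q.2).sum).sum).sum ≤
      2 ^ 68 * lawE (d + 1) a (cst P) M := by
    rw [hlaw]
    unfold KAL KBL
    rw [List.map_map]
    have : (2 : ℝ) ^ 68 * ((1 / 4) * ((kids (k1 a) P).map fun p => (p.1 : ℝ) *
      ((1 / 4) * ((kids (k2 a) P).map fun q => (q.1 : ℝ) *
        lawE d (k1 a) p.2 (fun X => lawE d (k2 a) q.2 (fun Y => M (comb X Y)))).sum)).sum) =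
      ((kids (k1 a) P).map fun p => (p.1 : ℝ) * ((kids (k2 a) P).map fun q => (q.1 : ℝ) *
        (2 ^ 64 * lawE d (k1 a) p.2 (fun X => lawE d (k2 a) q.2 (fun Y => M (comb X Y))))).sum).sum := by
      rw [← mul_assoc, ← List.sum_map_mul_left]
      congr 1
      apply List.map_congr_left
      intro p _
      have : (kids (k2 a) P).map (fun q => (q.1 : ℝ) *
        (2 ^ 64 * lawE d (k1 a) p.2 (fun X => lawE d (k2 a) q.2 (fun Y => M (comb X Y))))) =
        (kids (k2 a) P).map (fun q => 2 ^ 64 * ((q.1 : ℝ) *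
        (lawE d (k1 a) p.2 (fun X => lawE d (k2 a) q.2 (fun Y => M (comb X Y)))))) := by
        apply List.map_congr_left
        intro q _
        ring
      rw [this, List.sum_map_mul_left]
      ring
    rw [this]
    apply list_sum_le
    intro p hp
    simp only [Function.comp_apply]
    apply mul_le_mul_of_nonneg_left _ (Nat.cast_nonneg _)
    rw [List.map_map]
    apply list_sum_le
    intro q hq
    simp only [Function.comp_apply]
    exact mul_le_mul_of_nonneg_left (hmain p hp q hq) (Nat.cast_nonneg _)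
  have hk := key.trans hfin
  have h36 : ((68719476736 : ℕ) : ℝ) = 2 ^ 36 := by norm_num
  rw [h36] at hk
  have h68 : (2 : ℝ) ^ 68 * lawE (d + 1) a (cst P) M =
      2 ^ 36 * (2 ^ 32 * lawE (d + 1) a (cst P) M) := by ring
  rw [h68] at hk
  exact le_of_mul_le_mul_left hk (by positivity)

/-- the trees of depth `0` -/
theorem Dom0 (a : L) (P : Bool) (k : ℕ) (h : ∀ q : Pr, (q.1 ≠ q.2 ∧ k.testBit (idx q) = true) ↔
    q = pair a (cst P)) : Dom 0 a (cst P) [(k, 4294967296)] := by
  intro M hM hM0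
  have hd : dec k = {pair a (cst P)} := by
    ext q
    rw [mem_dec, Finset.mem_singleton]
    exact h q
  unfold evN
  rw [List.map_singleton, List.sum_singleton, hd]
  have : ((4294967296 : ℕ) : ℝ) = 2 ^ 32 := by norm_num
  show ((4294967296 : ℕ) : ℝ) * _ ≤ _
  rw [this]
  exact le_refl _

end Pool.Agent.Helper86.TC8
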